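import Mathlib

/-! Fourier analysis on the discrete cube: characters, Bonami's lemma, tail bounds. -/

open Finset
open scoped symmDiff BigOperators

namespace Pool.Agent.Lib.MP_5d53d3_co

abbrev X (n : ℕ) := Fin n → ℤˣ

variable {n : ℕ}

/-- the `i`-th sign as a real number -/
def sg (x : X n) (i : Fin n) : ℝ := ((x i : ℤ) : ℝ)

theorem sg_cases (x : X n) (i : Fin n) : sg x i = 1 ∨ sg x i = -1 := by
  unfold sg
  rcases Int.units_eq_one_or (x i) with h | h <;> simp [h]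

theorem sg_sq (x : X n) (i : Fin n) : sg x i * sg x i = 1 := by
  rcases sg_cases x i with h | h <;> simp [h]

theorem abs_sg (x : X n) (i : Fin n) : |sg x i| = 1 := by
  rcases sg_cases x i with h | h <;> simp [h]

theorem sg_mul (x y : X n) (i : Fin n) : sg (x * y) i = sg x i * sg y i := by simp [sg]

/-- characters -/
def ch (U : Finset (Fin n)) (x : X n) : ℝ := ∏ i ∈ U, sg x i

theorem ch_ite (U : Finset (Fin n)) (x : X n) :
    ch U x = ∏ i, if i ∈ U then sg x i else 1 := by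
  simp [ch, Finset.prod_ite_mem]

theorem ch_pt (U : Finset (Fin n)) (x y : X n) : ch U (x * y) = ch U x * ch U y := by
  simp [ch, sg_mul, Finset.prod_mul_distrib]

theorem ch_mul (U V : Finset (Fin n)) (x : X n) : ch U x * ch V x = ch (U ∆ V) x := by
  simp only [ch_ite, ← Finset.prod_mul_distrib]
  refine Finset.prod_congr rfl fun i _ ↦ ?_
  by_cases h1 : i ∈ U <;> by_cases h2 : i ∈ V <;> simp [h1, h2, Finset.mem_symmDiff, sg_sq]

theorem ch_empty (x : X n) : ch ∅ x = 1 := by simp [ch]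

theorem ch_sq (U : Finset (Fin n)) (x : X n) : ch U x * ch U x = 1 := by
  simp [ch_mul, ch_empty]

/-- the point with a single minus sign -/
def fl (i : Fin n) : X n := Pi.mulSingle i (-1)

theorem sg_fl (i j : Fin n) : sg (fl i) j = if j = i then -1 else 1 := by
  unfold sg fl
  by_cases h : j = i
  · subst h
    simp
  · simp [h]

theorem ch_fl (U : Finset (Fin n)) (i : Fin n) : ch U (fl i) = if i ∈ U then -1 else 1 := by
  simp [ch, sg_fl, Finset.prod_ite_eq']

theorem ex_odd (i : Fin n) {F : X n → ℝ} (h : ∀ x, F (x * fl i) = -F x) : 𝔼 x, F x = 0 := by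
  have h1 : 𝔼 x, F (x * fl i) = 𝔼 x, F x :=
    Fintype.expect_equiv (Equiv.mulRight (fl i)) _ _ fun _ ↦ rfl
  simp only [h, Finset.expect_neg_distrib] at h1
  linarith

theorem ex_const (c : ℝ) : 𝔼 _x : X n, c = c := by simp

theorem ex_ch_mul (U V : Finset (Fin n)) :
    𝔼 x, ch U x * ch V x = if U = V then 1 else 0 := by
  split_ifs with h
  · simp [h, ch_sq]
  · obtain ⟨i, hi⟩ : (U ∆ V).Nonempty := by
      rw [Finset.nonempty_iff_ne_empty]
      exact fun h0 ↦ h (symmDiff_eq_bot.1 h0)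
    simp only [ch_mul]
    exact ex_odd i fun x ↦ by simp [ch_pt, ch_fl, hi]

theorem sum_ch (z : X n) : ∑ U, ch U z = if z = 1 then 2 ^ n else 0 := by
  have h1 : ∑ U, ch U z = ∏ i, (1 + sg z i) := by
    rw [Finset.prod_one_add, Finset.powerset_univ]
    rfl
  rw [h1]
  split_ifs with h
  · simp [h, sg, one_add_one_eq_two]
  · obtain ⟨i, hi⟩ := Function.ne_iff.1 h
    refine Finset.prod_eq_zero (Finset.mem_univ i) ?_
    have := (Int.units_eq_one_or (z i)).resolve_left hi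
    simp [sg, this]

/-- Fourier coefficients -/
noncomputable def fc (f : X n → ℝ) (U : Finset (Fin n)) : ℝ := 𝔼 x, ch U x * f x

theorem inversion (f : X n → ℝ) (z : X n) : f z = ∑ U, fc f U * ch U z := by
  have h1 : ∀ w : X n, w * z = 1 ↔ w = z := fun w ↦ by
    rw [mul_eq_one_iff_eq_inv]
    have : z⁻¹ = z := by
      funext i
      simp
    rw [this]
  simp only [fc, Finset.expect_mul]
  rw [← Finset.expect_sum_comm]
  have h2 : ∀ w : X n, ∑ U, ch U w * f w * ch U z = if w = z then 2 ^ n * f w else 0 := by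
    intro w
    have : ∑ U, ch U w * f w * ch U z = (∑ U, ch U (w * z)) * f w := by
      rw [Finset.sum_mul]
      exact Finset.sum_congr rfl fun U _ ↦ by rw [ch_pt]; ring
    rw [this, sum_ch]
    simp [h1]
  simp only [h2]
  rw [Fintype.expect_eq_sum_div_card]
  simp

/-- Cauchy-Schwarz for averages of sums -/
theorem cs {ι : Type*} [Fintype ι] (f g : ι → X n → ℝ) :
    (𝔼 x, ∑ a, f a x * g a x) ^ 2 ≤ (𝔼 x, ∑ a, f a x ^ 2) * 𝔼 x, ∑ a, g a x ^ 2 := by
  have h := Finset.sum_mul_sq_le_sq_mul_sq (Finset.univ : Finset (X n × ι))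
    (fun p ↦ f p.2 p.1) (fun p ↦ g p.2 p.1)
  simp only [Fintype.sum_prod_type] at h
  simp only [Fintype.expect_eq_sum_div_card, div_pow, div_mul_div_comm, ← sq]
  exact div_le_div_of_nonneg_right h (by positivity)

theorem cs1 (f g : X n → ℝ) : (𝔼 x, f x * g x) ^ 2 ≤ (𝔼 x, f x ^ 2) * 𝔼 x, g x ^ 2 := by
  simpa using cs (ι := Unit) (fun _ ↦ f) (fun _ ↦ g)

/-- sums of characters with bounded multiplicity -/
theorem ex_sq_le {α : Type*} (T : Finset α) (φ : α → Finset (Fin n)) (c : α → ℝ) {m : ℕ}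
    (hm : ∀ U, (T.filter fun t ↦ φ t = U).card ≤ m) :
    𝔼 x, (∑ t ∈ T, c t * ch (φ t) x) ^ 2 ≤ m * ∑ t ∈ T, c t ^ 2 := by
  have h1 : ∀ x, ∑ t ∈ T, c t * ch (φ t) x =
      ∑ U, (∑ t ∈ T.filter fun t ↦ φ t = U, c t) * ch U x := fun x ↦ by
    rw [← Finset.sum_fiberwise T φ]
    refine Finset.sum_congr rfl fun U _ ↦ ?_
    rw [Finset.sum_mul]
    exact Finset.sum_congr rfl fun t ht ↦ by rw [(Finset.mem_filter.1 ht).2]
  have h2 : ∀ b : Finset (Fin n) → ℝ, 𝔼 x, (∑ U, b U * ch U x) ^ 2 = ∑ U, b U ^ 2 := by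
    intro b
    simp only [sq, Finset.sum_mul_sum, Finset.expect_sum_comm]
    refine Finset.sum_congr rfl fun U _ ↦ ?_
    have : ∀ V, 𝔼 x, b U * ch U x * (b V * ch V x) = if U = V then b U * b V else 0 := by
      intro V
      have : ∀ x, b U * ch U x * (b V * ch V x) = b U * b V * (ch U x * ch V x) := fun x ↦ by ring
      simp only [this, ← Finset.mul_expect, ex_ch_mul]
      simp
    simp [this]
  simp only [h1, h2]
  rw [← Finset.sum_fiberwise T φ, Finset.mul_sum]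
  refine Finset.sum_le_sum fun U _ ↦ sq_sum_le_card_mul_sum_sq.trans ?_
  exact mul_le_mul_of_nonneg_right (by exact_mod_cast hm U) (by positivity)

/-- polynomials of degree at most `D` in the variables of `I` -/
def V (I : Finset (Fin n)) (D : ℕ) : Submodule ℝ (X n → ℝ) :=
  Submodule.span ℝ {f | ∃ U ⊆ I, U.card ≤ D ∧ f = ch U}

theorem ch_mem {I U : Finset (Fin n)} {D : ℕ} (h : U ⊆ I) (h' : U.card ≤ D) : ch U ∈ V I D :=
  Submodule.subset_span ⟨U, h, h', rfl⟩

theorem sum_mem {α : Type*} (T : Finset α) (φ : α → Finset (Fin n)) (c : α → ℝ) {D : ℕ}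
    (h : ∀ t ∈ T, (φ t).card ≤ D) : (fun x ↦ ∑ t ∈ T, c t * ch (φ t) x) ∈ V univ D := by
  have : (fun x ↦ ∑ t ∈ T, c t * ch (φ t) x) = ∑ t ∈ T, c t • ch (φ t) := by
    funext x
    simp
  rw [this]
  exact Submodule.sum_mem _ fun t ht ↦ Submodule.smul_mem _ _ (ch_mem (subset_univ _) (h t ht))

theorem V_mul {I : Finset (Fin n)} {D D' : ℕ} {f g : X n → ℝ} (hf : f ∈ V I D)
    (hg : g ∈ V I D') : f * g ∈ V I (D + D') := by
  have := Submodule.mul_mem_mul hf hg
  rw [V, V, Submodule.span_mul_span] at this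
  refine Submodule.span_mono ?_ this
  rintro _ ⟨_, ⟨U, h1, h2, rfl⟩, _, ⟨W, h3, h4, rfl⟩, rfl⟩
  refine ⟨U ∆ W, Finset.symmDiff_subset_union.trans (Finset.union_subset h1 h3),
    (Finset.card_le_card Finset.symmDiff_subset_union).trans
      ((Finset.card_union_le _ _).trans (add_le_add h2 h4)), ?_⟩
  funext x
  exact ch_mul U W x

theorem V_inv {I : Finset (Fin n)} {D : ℕ} {f : X n → ℝ} (hf : f ∈ V I D) {i : Fin n}
    (hi : i ∉ I) (x : X n) : f (x * fl i) = f x := by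
  induction hf using Submodule.span_induction with
  | mem f h =>
    obtain ⟨U, h1, -, rfl⟩ := h
    have : i ∉ U := fun h ↦ hi (h1 h)
    simp [ch_pt, ch_fl, this]
  | zero => rfl
  | add f g _ _ h1 h2 => simp [h1, h2]
  | smul c f _ h => simp [h]

theorem V_split {I : Finset (Fin n)} {D : ℕ} {i : Fin n} {f : X n → ℝ}
    (hf : f ∈ V (insert i I) D) : ∃ g ∈ V I D, ∃ h ∈ V I (D - 1), (D = 0 → h = 0) ∧
      ∀ x, f x = g x + sg x i * h x := by
  induction hf using Submodule.span_induction with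
  | mem f h =>
    obtain ⟨U, h1, h2, rfl⟩ := h
    by_cases hi : i ∈ U
    · refine ⟨0, zero_mem _, ch (U.erase i), ch_mem (Finset.subset_insert_iff.1 h1) ?_, ?_, ?_⟩
      · rw [Finset.card_erase_of_mem hi]
        omega
      · rintro rfl
        have := Finset.card_pos.2 ⟨i, hi⟩
        omega
      · intro x
        simp [ch, Finset.mul_prod_erase U (sg x) hi]
    · exact ⟨ch U, ch_mem ((Finset.subset_insert_iff_of_notMem hi).1 h1) h2, 0, zero_mem _,
        fun _ ↦ rfl, fun x ↦ by simp⟩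
  | zero => exact ⟨0, zero_mem _, 0, zero_mem _, fun _ ↦ rfl, fun x ↦ by simp⟩
  | add f g _ _ h1 h2 =>
    obtain ⟨a, ha, b, hb, h0, e⟩ := h1
    obtain ⟨a', ha', b', hb', h0', e'⟩ := h2
    exact ⟨a + a', add_mem ha ha', b + b', add_mem hb hb', fun h ↦ by simp [h0 h, h0' h],
      fun x ↦ by simp only [Pi.add_apply, e, e']; ring⟩
  | smul c f _ h =>
    obtain ⟨a, ha, b, hb, h0, e⟩ := h
    exact ⟨c • a, Submodule.smul_mem _ _ ha, c • b, Submodule.smul_mem _ _ hb,
      fun h ↦ by simp [h0 h], fun x ↦ by simp only [Pi.smul_apply, smul_eq_mul, e]; ring⟩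

theorem V_empty {D : ℕ} {f : X n → ℝ} (hf : f ∈ V ∅ D) : ∃ c, ∀ x, f x = c := by
  induction hf using Submodule.span_induction with
  | mem f h =>
    obtain ⟨U, h1, -, rfl⟩ := h
    exact ⟨1, fun x ↦ by simp [Finset.subset_empty.1 h1, ch_empty]⟩
  | zero => exact ⟨0, fun _ ↦ rfl⟩
  | add f g _ _ h1 h2 =>
    obtain ⟨a, ha⟩ := h1
    obtain ⟨b, hb⟩ := h2
    exact ⟨a + b, fun x ↦ by simp [ha, hb]⟩
  | smul c f _ h =>
    obtain ⟨a, ha⟩ := h
    exact ⟨c * a, fun x ↦ by simp [ha]⟩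

/-- Bonami's lemma -/
theorem bonami (I : Finset (Fin n)) : ∀ (D : ℕ) (f : X n → ℝ), f ∈ V I D →
    𝔼 x, f x ^ 4 ≤ 9 ^ D * (𝔼 x, f x ^ 2) ^ 2 := by
  induction I using Finset.induction_on with
  | empty =>
    intro D f hf
    obtain ⟨c, hc⟩ := V_empty hf
    simp only [hc, ex_const]
    have : (1 : ℝ) ≤ 9 ^ D := one_le_pow₀ (by norm_num)
    nlinarith [sq_nonneg (c ^ 2)]
  | insert i I hi ih =>
    intro D f hf
    obtain ⟨g, hg, h, hh, h0, e⟩ := V_split hf
    rcases D with _ | D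
    · simpa [e, h0 rfl] using ih 0 g hg
    have odd : ∀ F : ℝ → ℝ → ℝ, 𝔼 x, sg x i * F (g x) (h x) = 0 := fun F ↦
      ex_odd i fun x ↦ by simp [V_inv hg hi, V_inv hh hi, sg_mul, sg_fl]
    have e2 : ∀ x, f x ^ 2 = g x ^ 2 + h x ^ 2 + sg x i * (2 * g x * h x) := fun x ↦ by
      rw [e]
      linear_combination h x ^ 2 * sg_sq x i
    have e4 : ∀ x, f x ^ 4 = g x ^ 4 + 6 * (g x ^ 2 * h x ^ 2) + h x ^ 4 +
        sg x i * (4 * g x ^ 3 * h x + 4 * g x * h x ^ 3) := fun x ↦ by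
      rw [e]
      linear_combination (6 * g x ^ 2 * h x ^ 2 + 4 * g x * h x ^ 3 * sg x i +
        h x ^ 4 * (sg x i ^ 2 + 1)) * sg_sq x i
    simp only [e2, e4, Finset.expect_add_distrib, ← Finset.mul_expect,
      odd fun a b ↦ 2 * a * b, odd fun a b ↦ 4 * a ^ 3 * b + 4 * a * b ^ 3, add_zero]
    have h1 := ih _ g hg
    have h2 := ih _ h hh
    have h3 := cs1 (fun x ↦ g x ^ 2) (fun x ↦ h x ^ 2)
    simp only [← pow_mul, Nat.add_sub_cancel] at h3 h2
    set a := 𝔼 x, g x ^ 2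
    set b := 𝔼 x, h x ^ 2
    have ha : 0 ≤ a := Finset.expect_nonneg fun _ _ ↦ by positivity
    have hb : 0 ≤ b := Finset.expect_nonneg fun _ _ ↦ by positivity
    have h4 : 𝔼 x, g x ^ 2 * h x ^ 2 ≤ 3 * 9 ^ D * (a * b) := by
      refine abs_le_of_sq_le_sq' (h3.trans ?_) (by positivity) |>.2
      refine (mul_le_mul h1 h2 (Finset.expect_nonneg fun _ _ ↦ by positivity)
        (by positivity)).trans (le_of_eq ?_)
      ring
    have h5 : (0 : ℝ) ≤ 9 ^ D * b ^ 2 := by positivity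
    rw [pow_succ] at h1 ⊢
    nlinarith

theorem moment (k : ℕ) : ∀ (D : ℕ) (f : X n → ℝ), f ∈ V univ D →
    𝔼 x, f x ^ (2 * 2 ^ k) ≤ ((2 * 2 ^ k : ℕ) : ℝ) ^ (D * (2 * 2 ^ k)) *
      (𝔼 x, f x ^ 2) ^ 2 ^ k := by
  induction k with
  | zero =>
    intro D f _
    simp only [pow_zero, mul_one, pow_one]
    exact le_mul_of_one_le_left (Finset.expect_nonneg fun _ _ ↦ by positivity)
      (one_le_pow₀ (by norm_num))
  | succ k ih =>
    intro D f hf
    have h1 := ih (D + D) (f * f) (V_mul hf hf)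
    have h2 := bonami univ D f hf
    have e1 : ∀ x, (f * f) x ^ (2 * 2 ^ k) = f x ^ (2 * 2 ^ (k + 1)) := fun x ↦ by
      rw [Pi.mul_apply, ← sq, ← pow_mul]
      congr 1
      ring
    have e2 : ∀ x, (f * f) x ^ 2 = f x ^ 4 := fun x ↦ by
      rw [Pi.mul_apply]
      ring
    simp only [e1, e2] at h1
    have h3 := pow_le_pow_left₀ (Finset.expect_nonneg fun _ _ ↦ by positivity) h2 (2 ^ k)
    refine h1.trans ((mul_le_mul_of_nonneg_left h3 (by positivity)).trans ?_)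
    rw [mul_pow, ← pow_mul, ← pow_mul, ← mul_assoc, show 2 ^ (k + 1) = 2 * 2 ^ k from pow_succ' 2 k]
    refine mul_le_mul_of_nonneg_right ?_
      (pow_nonneg (Finset.expect_nonneg fun _ _ ↦ by positivity) _)
    have h4 : (9 : ℝ) ^ (D * 2 ^ k) ≤ 2 ^ (D * (2 * (2 * 2 ^ k))) := by
      have : D * (2 * (2 * 2 ^ k)) = 4 * (D * 2 ^ k) := by ring
      rw [this, pow_mul (2 : ℝ) 4]
      exact pow_le_pow_left₀ (by norm_num) (by norm_num) _
    have e3 : ((2 * (2 * 2 ^ k) : ℕ) : ℝ) = (2 * 2 ^ k : ℕ) * 2 := by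
      push_cast
      ring
    have e4 : (D + D) * (2 * 2 ^ k) = D * (2 * (2 * 2 ^ k)) := by ring
    rw [e3, mul_pow, e4]
    exact mul_le_mul_of_nonneg_left h4 (by positivity)

/-- tail bounds -/
theorem tail {p : ℕ} (hp : ∃ k, p = 2 * 2 ^ k) {D : ℕ} {f : X n → ℝ} (hf : f ∈ V univ D) {N : ℝ}
    (hN : 0 ≤ N) (h : 𝔼 x, f x ^ 2 ≤ N ^ 2) {j : ℕ} (hj : j ≤ 2) :
    𝔼 x, (if 2 * p ^ D * N < |f x| then |f x| ^ j else 0) ≤ (2 * p ^ D * N) ^ j / 2 ^ p := by
  obtain ⟨k, rfl⟩ := hp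
  set p := 2 * 2 ^ k with hp
  have hp2 : 2 ≤ p := by
    have : 1 ≤ 2 ^ k := Nat.one_le_two_pow
    omega
  have hp0 : (0 : ℝ) < p := by positivity
  have h1 := moment k D f hf
  rw [← hp] at h1
  have h2 : 𝔼 x, f x ^ p ≤ (p ^ D * N) ^ p := by
    refine h1.trans ?_
    rw [mul_pow, ← pow_mul]
    refine mul_le_mul_of_nonneg_left ?_ (by positivity)
    rw [hp, pow_mul N]
    exact pow_le_pow_left₀ (Finset.expect_nonneg fun _ _ ↦ by positivity) h _
  have hev : ∀ x, |f x| ^ p = f x ^ p := fun x ↦ by rw [hp, pow_mul, pow_mul, sq_abs]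
  rcases hN.eq_or_lt with rfl | hN
  · have h3 : ∀ x, f x = 0 := by
      have h4 := (Finset.expect_eq_zero_iff_of_nonneg (s := univ) (f := fun x ↦ f x ^ 2)
        fun _ _ ↦ by positivity).1 (le_antisymm (by simpa using h)
          (Finset.expect_nonneg fun _ _ ↦ by positivity))
      exact fun x ↦ pow_eq_zero_iff two_ne_zero |>.1 (h4 x (mem_univ x))
    simp only [h3, mul_zero, abs_zero, lt_self_iff_false, if_false, ex_const]
    positivity
  set a : ℝ := 2 * p ^ D * N with ha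
  have ha0 : 0 < a := by positivity
  have h3 : ∀ x, (if a < |f x| then |f x| ^ j else 0) ≤ a ^ j / a ^ p * f x ^ p := fun x ↦ by
    rw [← hev]
    split_ifs with hx
    · obtain ⟨m, hm⟩ : ∃ m, p = j + m := ⟨p - j, by omega⟩
      rw [hm, pow_add, pow_add, ← div_div, div_self (by positivity), one_div,
        mul_comm (|f x| ^ j), ← mul_assoc]
      refine le_mul_of_one_le_left (by positivity) ?_
      rw [inv_mul_eq_div, one_le_div (by positivity)]
      exact pow_le_pow_left₀ ha0.le hx.le m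
    · positivity
  refine (Finset.expect_le_expect fun x _ ↦ h3 x).trans ?_
  rw [← Finset.mul_expect]
  refine (mul_le_mul_of_nonneg_left h2 (by positivity)).trans (le_of_eq ?_)
  have : a ^ p = 2 ^ p * (p ^ D * N) ^ p := by rw [ha, mul_assoc, mul_pow]
  rw [this]
  field_simp

end Pool.Agent.Lib.MP_5d53d3_co
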