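import Mathlib

namespace Pool.Agent.Lib.MP_5d53d3_co

/-- a quantum `c`-colouring of `G` in dimension `d` -/
def IsQColoring {V : Type} (G : SimpleGraph V) (d c : ℕ)
    (P : V → Fin c → Matrix (Fin d) (Fin d) ℂ) : Prop :=
  (∀ v k, (P v k).IsHermitian ∧ P v k * P v k = P v k) ∧ (∀ v, ∑ k, P v k = 1) ∧
    ∀ v w, G.Adj v w → ∀ k, P v k * P w k = 0

/-- the least number of colours of a quantum colouring in dimension `d` -/
noncomputable def chiD {V : Type} (G : SimpleGraph V) (d : ℕ) : ℕ :=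
  sInf {c | ∃ P, IsQColoring G d c P}

/-- the orthogonality graph on sign vectors of length `n` -/
def Omega (n : ℕ) : SimpleGraph (Fin n → ℤˣ) :=
  SimpleGraph.fromRel fun x y ↦ ∑ i, (x i : ℤ) * (y i : ℤ) = 0

end Pool.Agent.Lib.MP_5d53d3_co
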