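import Pool.Agent.Lib.MP_5d53d3_co.Upper

/-! An almost flat unitary matrix in every dimension: a combination of the identity, the Fourier
matrix and the flip. -/

open Finset Complex
open scoped BigOperators Matrix ComplexConjugate

namespace Pool.Agent.Lib.MP_5d53d3_co

theorem flip_flat (d : ℕ) [NeZero d] (N : ℝ) (hN : (d : ℝ) ≤ N) :
    ∃ M : Matrix (ZMod d) (ZMod d) ℂ, M * Mᴴ = 1 ∧
      ∀ j k, j ≠ k → j ≠ -k → normSq (M j k) = 1 / N := by
  have hd : (0 : ℝ) < d := by exact_mod_cast Nat.pos_of_ne_zero (NeZero.ne d)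
  have h0 : (0 : ℝ) < N := lt_of_lt_of_le hd hN
  set E : Matrix (ZMod d) (ZMod d) ℂ := fun x y ↦ ZMod.stdAddChar (y * x) with hE
  set P : Matrix (ZMod d) (ZMod d) ℂ := fun x y ↦ if x = -y then 1 else 0 with hP
  have e1 : E * Eᴴ = (d : ℂ) • 1 := by
    ext x y
    have : ∀ z, E x z * star (E y z) = ZMod.stdAddChar (z * (x - y)) := fun z ↦ by
      simp only [hE, RCLike.star_def, ← AddChar.map_neg_eq_conj, sub_eq_add_neg, mul_add,
        mul_neg, AddChar.map_add_eq_mul]
    simp only [Matrix.mul_apply, Matrix.conjTranspose_apply, this,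
      sum_psi (ZMod.isPrimitive_stdAddChar d), sub_eq_zero, Matrix.smul_apply, Matrix.one_apply,
      ZMod.card]
    split_ifs <;> simp
  have e2 : E * P = Eᴴ := by
    ext x y
    simp only [Matrix.mul_apply, hP, mul_ite, mul_one, mul_zero, Finset.sum_ite_eq', mem_univ,
      if_true, Matrix.conjTranspose_apply, hE, RCLike.star_def, ← AddChar.map_neg_eq_conj]
    congr 1
    ring
  have e3 : Pᴴ = P := by
    ext x y
    simp only [Matrix.conjTranspose_apply, hP]
    by_cases h : x = -y
    · rw [if_pos h, if_pos (by rw [h, neg_neg])]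
      simp
    · rw [if_neg h, if_neg (fun h' ↦ h (by rw [h', neg_neg]))]
      simp
  have e4 : P * P = 1 := by
    ext x y
    simp only [Matrix.mul_apply, hP, mul_ite, mul_one, mul_zero, Finset.sum_ite_eq', mem_univ,
      if_true, neg_neg, Matrix.one_apply]
  have e5 : P * Eᴴ = E := by
    have := congrArg Matrix.conjTranspose e2
    rwa [Matrix.conjTranspose_mul, e3, Matrix.conjTranspose_conjTranspose] at this
  obtain ⟨c, hc⟩ : ∃ c : ℝ, c * c = 1 / N := ⟨_, Real.mul_self_sqrt (by positivity)⟩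
  obtain ⟨s, hs⟩ : ∃ s : ℝ, s * s = (1 - d / N) / 4 := ⟨_, Real.mul_self_sqrt (by
    have : (d : ℝ) / N ≤ 1 := (div_le_one h0).2 hN
    linarith)⟩
  refine ⟨((s : ℂ) * (1 + I)) • 1 + (c : ℂ) • E + ((s : ℂ) * (-1 + I)) • P, ?_,
    fun j k h1 h2 ↦ ?_⟩
  · have a1 : 4 * ((s : ℂ) * s) + c * c * d = 1 := by
      have : 4 * (s * s) + c * c * d = 1 := by
        rw [hs, hc]
        ring
      exact_mod_cast this
    simp only [Matrix.conjTranspose_smul, Matrix.conjTranspose_add, Matrix.conjTranspose_one, e3,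
      Matrix.smul_mul, Matrix.mul_smul, Matrix.add_mul, Matrix.mul_add, Matrix.one_mul,
      Matrix.mul_one, e1, e2, e4, e5, star_mul', star_add, star_neg, star_one, RCLike.star_def,
      conj_ofReal, conj_I]
    match_scalars
    · linear_combination a1 - 2 * (s : ℂ) * s * I_mul_I
    · ring
    · linear_combination -2 * (s : ℂ) * s * I_mul_I
    · ring
  · simp [Matrix.one_apply_ne h1, hP, h2, hE, normSq_psi, hc]

theorem upper_two {n d : ℕ} (hd : 2 ≤ d) (h : d ≤ n) :
    chiD (Omega n) d ≤ d * 2 ^ (n - d + 1) := by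
  have : NeZero d := ⟨by omega⟩
  have : Fact (1 < d) := ⟨hd⟩
  obtain ⟨M, h1, h2⟩ := flip_flat d n (by exact_mod_cast h)
  have := core (ι := ZMod d) (n := n) (a := 2) (by simpa using h) two_pos M h1
    (fun k ↦ if k = -k then {k, k + 1} else {k, -k}) (fun k ↦ by
      split_ifs with hk
      · exact Finset.card_pair (by simp)
      · exact Finset.card_pair hk) (fun k j hj ↦ by
      split_ifs at hj with hk
      · have hjk : j ≠ k := fun e ↦ hj (by simp [e])
        exact h2 j k hjk (hk ▸ hjk)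
      · exact h2 j k (fun e ↦ hj (by simp [e])) (fun e ↦ hj (by simp [e])))
  simpa using this

open Classical in
theorem upper_all {n d : ℕ} (hd : 0 < d) (h : d ≤ n) :
    chiD (Omega n) d ≤ d * 2 ^ (n - d + if IsPrimePow d ∨ IsSquare d then 0 else 1) := by
  split_ifs with hc
  · have := upper (n := n) (a := 1) (b := d) one_pos (hc.imp id fun h' ↦ ⟨hd, h'⟩) (by omega)
    simpa using this
  · refine upper_two ?_ h
    by_contra h2
    obtain rfl : d = 1 := by omega
    exact hc (Or.inr IsSquare.one)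

end Pool.Agent.Lib.MP_5d53d3_co
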