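import Pool.Agent.Lib.QE.UpA
import Pool.Agent.Lib.MP_5d53d3_co.Upper2

/-! The upper bound without loss in every even dimension. -/

open Finset Complex
open scoped BigOperators Matrix ComplexConjugate

namespace Pool.Agent.Lib.MP_5d53d3_co

theorem even_unitary (m : ℕ) [NeZero m] (c σ : ℝ) (h : 2 * (c * c * m + σ * σ) = 1) :
    ∃ M : Matrix (ZMod m ⊕ ZMod m) (ZMod m ⊕ ZMod m) ℂ, M * Mᴴ = 1 ∧ ∀ j k, normSq (M j k) =
      c * c + if Sum.elim id id j = (Sum.elim id id k : ZMod m) then σ * σ else 0 := by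
  set G : Matrix (ZMod m) (ZMod m) ℂ := fun x y ↦ ZMod.stdAddChar (y * (x - y)) with hG
  have e1 : G * Gᴴ = (m : ℂ) • 1 := by
    ext x y
    have : ∀ z, G x z * star (G y z) = ZMod.stdAddChar (z * (x - y)) := fun z ↦ by
      simp only [hG, RCLike.star_def, ← AddChar.map_neg_eq_conj, ← AddChar.map_add_eq_mul]
      congr 1
      ring
    simp only [Matrix.mul_apply, Matrix.conjTranspose_apply, this,
      sum_psi (ZMod.isPrimitive_stdAddChar m), sub_eq_zero, Matrix.smul_apply, Matrix.one_apply,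
      ZMod.card]
    split_ifs <;> simp
  have e2 : Gᴴ * G = (m : ℂ) • 1 := by
    have hm : (m : ℂ) ≠ 0 := Nat.cast_ne_zero.2 (NeZero.ne m)
    have h1 : G * ((m : ℂ)⁻¹ • Gᴴ) = 1 := by
      rw [Matrix.mul_smul, e1, smul_smul, inv_mul_cancel₀ hm, one_smul]
    have h2 := mul_eq_one_comm.1 h1
    rw [Matrix.smul_mul] at h2
    rw [← h2, smul_smul, mul_inv_cancel₀ hm, one_smul]
  have a1 : 2 * ((c : ℂ) * c * m + σ * σ) = 1 := by exact_mod_cast h
  have d1 : ∀ x, G x x = 1 := fun x ↦ by simp [hG]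
  have d2 : ∀ x y, normSq (G x y) = 1 := fun x y ↦ normSq_psi _ _
  refine ⟨Matrix.fromBlocks ((c : ℂ) • Gᴴ + ((σ : ℂ) * I) • 1) ((c : ℂ) • G + ((σ : ℂ) * I) • 1)
    ((-c : ℂ) • Gᴴ + ((σ : ℂ) * I) • 1) ((c : ℂ) • G + (-(σ : ℂ) * I) • 1), ?_, ?_⟩
  · rw [Matrix.fromBlocks_conjTranspose, Matrix.fromBlocks_multiply, ← Matrix.fromBlocks_one,
      Matrix.fromBlocks_inj]
    simp only [Matrix.conjTranspose_smul, Matrix.conjTranspose_add, Matrix.conjTranspose_one,
      Matrix.conjTranspose_conjTranspose, Matrix.smul_mul, Matrix.mul_smul, Matrix.add_mul,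
      Matrix.mul_add, Matrix.one_mul, Matrix.mul_one, e1, e2, star_mul', star_neg,
      RCLike.star_def, conj_ofReal, conj_I]
    refine ⟨?_, ?_, ?_, ?_⟩ <;> match_scalars <;>
      first
        | ring1
        | linear_combination a1 - 2 * (σ : ℂ) * σ * I_mul_I
  · rintro (j | j) (k | k) <;> by_cases hjk : j = k
    all_goals first
      | (subst hjk
         simp [d1, normSq_apply])
      | simp [Matrix.one_apply_ne hjk, hjk, d2]

theorem upper_even {n m s : ℕ} (hm : 0 < m) (h : 2 * m + 2 * s = n) :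
    chiD (Omega n) (2 * m) ≤ 2 * m * 2 ^ (2 * s) := by
  have : NeZero m := ⟨hm.ne'⟩
  have hn : (n : ℝ) = 2 * m + 2 * s := by exact_mod_cast h.symm
  have hm' : (0 : ℝ) < m := by exact_mod_cast hm
  have h0 : (0 : ℝ) < n := by rw [hn]; positivity
  obtain ⟨c, hc⟩ : ∃ c : ℝ, c * c = 1 / n := ⟨_, Real.mul_self_sqrt (by positivity)⟩
  obtain ⟨σ, hσ⟩ : ∃ σ : ℝ, σ * σ = s / n := ⟨_, Real.mul_self_sqrt (by positivity)⟩
  obtain ⟨M, h1, h2⟩ := even_unitary m c σ (by
    rw [hc, hσ]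
    field_simp
    linarith)
  obtain ⟨E⟩ : Nonempty ((ZMod m ⊕ ZMod m) ⊕ (Fin s ⊕ Fin s) ≃ Fin n) :=
    ⟨Fintype.equivFinOfCardEq (by simp; omega)⟩
  have := QE.UpA.core2 E M h1
    (fun k ↦ Sum.map (fun _ ↦ Sum.elim id id k) (fun _ ↦ Sum.elim id id k)) fun j k ↦ by
      rw [h2, hc, hσ, Finset.card_filter, Fintype.sum_sum_type]
      rcases j with j | j <;> by_cases hjk : j = Sum.elim id id k
      · simp [hjk]
        field_simp
      · simp [hjk, Ne.symm hjk, h0.ne']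
      · simp [hjk]
        field_simp
      · simp [hjk, Ne.symm hjk, h0.ne']
  simpa [two_mul] using this

theorem upper_even' {n d : ℕ} (hn : Even n) (he : Even d) (hd : 0 < d) (h : d ≤ n) :
    chiD (Omega n) d ≤ d * 2 ^ (n - d) := by
  obtain ⟨m, rfl⟩ := he.two_dvd
  obtain ⟨r, rfl⟩ := hn.two_dvd
  have := upper_even (n := 2 * r) (m := m) (s := r - m) (by omega) (by omega)
  rwa [show 2 * r - 2 * m = 2 * (r - m) by omega]

open Classical in
theorem upper_all_even {n d : ℕ} (hd : 0 < d) (h : d ≤ n) :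
    chiD (Omega n) d ≤
      d * 2 ^ (n - d + if (Even n ∧ Even d) ∨ IsPrimePow d ∨ IsSquare d then 0 else 1) := by
  by_cases he : Even n ∧ Even d
  · rw [if_pos (Or.inl he), add_zero]
    exact upper_even' he.1 he.2 hd h
  · simpa [he] using upper_all hd h

end Pool.Agent.Lib.MP_5d53d3_co
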