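import Pool.Agent.Lib.QE.Final
import Pool.Agent.Lib.MP_5d53d3_co.Upper3

/-! The exact value near the top, for all even dimensions and some odd ones. -/

namespace Pool.Agent.Lib.MP_5d53d3_co

theorem exact_even : ∃ K : ℕ, ∀ n d t : ℕ, 4 ∣ n → d + t = n → 2 ^ (K * (t + 1)) ≤ n →
    (Even d ∨ ∃ a b, a * b = d ∧ a ∣ n ∧ (IsPrimePow b ∨ IsSquare b)) →
    chiD (Omega n) d = d * 2 ^ t := by
  obtain ⟨K, hK⟩ := QE.fin_all
  refine ⟨K + 1, fun n d t h4 h hn hd => le_antisymm ?_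
    (hK n _ t h4 h (le_trans (Nat.pow_le_pow_right two_pos (by nlinarith)) hn))⟩
  have h1 : t + 1 < 2 ^ (t + 1) := Nat.lt_two_pow_self
  have h2 : 2 ^ (t + 1) ≤ 2 ^ ((K + 1) * (t + 1)) := Nat.pow_le_pow_right two_pos (by nlinarith)
  have h0 : 0 < d := by omega
  rcases hd with he | ⟨a, b, rfl, ha, hb⟩
  · have := upper_even' (n := n) (even_iff_two_dvd.2 (Dvd.dvd.trans (by norm_num) h4)) he h0
      (by omega)
    rwa [show n - d = t by omega] at this
  · exact QE.upper_exact h0 h ha (hb.imp id fun h' => Or.inr (Or.inl h'))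

end Pool.Agent.Lib.MP_5d53d3_co
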