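import Pool.Agent.Lib.QE.UpA

/-! Symmetric Hadamard and symmetric conference matrices of order `b + 1` give almost flat unitary
matrices of order `b`. -/

open Finset Complex
open scoped BigOperators Matrix ComplexConjugate

namespace Pool.Agent.Lib.MP_5d53d3_co

theorem core_par (b l N : ℝ) (hb : 0 < b) (hN : b ≤ N) (hl : l ≤ b + 1) :
    ∃ x y z : ℝ, x * x + y * y = 1 / N ∧ y * y * b + 2 * y * z = x * x ∧ x * x * l + z * z = 1 := by
  have h0 : 0 < N := lt_of_lt_of_le hb hN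
  set w : ℝ := 1 / N with hw
  have hw0 : 0 < w := by positivity
  have hwb : w * b ≤ 1 := by
    rw [hw, div_mul_eq_mul_div, one_mul, div_le_one h0]
    exact hN
  set u1 : ℝ := w / (b + 1) with hu1
  have hu0 : 0 < u1 := by positivity
  have hu2 : (b + 1) * u1 = w := by
    rw [hu1]
    field_simp
  have hc : Continuous fun u : ℝ ↦ 4 * u * l * (w - u) + (w - (b + 1) * u) ^ 2 - 4 * u := by
    fun_prop
  have h1 : 4 * u1 * l * (w - u1) + (w - (b + 1) * u1) ^ 2 - 4 * u1 ≤ 0 := by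
    have e : w - u1 = b * u1 := by linarith
    have h2 : l * (b * u1) ≤ 1 := by
      have : l * (b * u1) ≤ (b + 1) * (b * u1) := mul_le_mul_of_nonneg_right hl (by positivity)
      nlinarith
    rw [hu2, e]
    nlinarith
  obtain ⟨u, ⟨hu3, hu4⟩, hu5⟩ := intermediate_value_Icc' hu0.le hc.continuousOn
    (show (0 : ℝ) ∈ Set.Icc _ _ from ⟨h1, by nlinarith⟩)
  have hu5' : 4 * u * l * (w - u) + (w - (b + 1) * u) ^ 2 - 4 * u = 0 := hu5
  have hu6 : 0 < u := by
    refine lt_of_le_of_ne hu3 fun h ↦ ?_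
    rw [← h] at hu5'
    nlinarith
  obtain ⟨y, hy0, hy⟩ : ∃ y : ℝ, 0 < y ∧ y * y = u :=
    ⟨√u, Real.sqrt_pos.2 hu6, Real.mul_self_sqrt hu3⟩
  obtain ⟨x, hx⟩ : ∃ x : ℝ, x * x = w - u := ⟨_, Real.mul_self_sqrt (by nlinarith)⟩
  have hz : 2 * y * ((w - (b + 1) * u) / (2 * y)) = w - (b + 1) * u := by field_simp
  set z : ℝ := (w - (b + 1) * u) / (2 * y)
  refine ⟨x, y, z, by linarith, by rw [hz, hy, hx]; ring, ?_⟩
  refine mul_left_cancel₀ (show (4 * u) ≠ 0 by positivity) ?_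
  rw [hx]
  have : (w - (b + 1) * u) ^ 2 = 4 * u * (z * z) := by
    rw [← hz, ← hy]
    ring
  linarith

theorem flat_of_core {β : Type} [Fintype β] [DecidableEq β] (Q J : Matrix β β ℂ) (l : ℝ)
    (hl : l ≤ Fintype.card β + 1) (hQ : Qᴴ = Q) (hJ : Jᴴ = J) (h1 : Q * Q = (l : ℂ) • 1 - J)
    (h2 : Q * J = J * Q) (h3 : J * J = (Fintype.card β : ℂ) • J)
    (h4 : ∀ j k, j ≠ k → Q j k = 1 ∨ Q j k = -1) (h5 : ∀ j k, J j k = 1 ∨ J j k = -1) :
    Flat β := by
  intro N hN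
  rcases isEmpty_or_nonempty β with h | h
  · exact ⟨1, Subsingleton.elim _ _, fun j ↦ isEmptyElim j⟩
  obtain ⟨x, y, z, e1, e2, e3⟩ := core_par (Fintype.card β) l N
    (by exact_mod_cast Fintype.card_pos) hN hl
  have a2 : (y : ℂ) * y * (Fintype.card β : ℂ) + 2 * y * z = x * x := by exact_mod_cast e2
  have a3 : (x : ℂ) * x * l + z * z = 1 := by exact_mod_cast e3
  refine ⟨(x : ℂ) • Q + ((y : ℂ) * I) • J + ((z : ℂ) * I) • 1, ?_, fun j k hjk ↦ ?_⟩
  · simp only [Matrix.conjTranspose_smul, Matrix.conjTranspose_add, Matrix.conjTranspose_one, hQ,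
      hJ, Matrix.smul_mul, Matrix.mul_smul, Matrix.add_mul, Matrix.mul_add, Matrix.one_mul,
      Matrix.mul_one, h1, h2, h3, star_mul', RCLike.star_def, conj_ofReal, conj_I]
    match_scalars
    · linear_combination a3 - (z : ℂ) * z * I_mul_I
    · linear_combination a2 - ((y : ℂ) * y * (Fintype.card β : ℂ) + 2 * y * z) * I_mul_I
    · ring
    · ring
  · rw [← e1]
    rcases h4 j k hjk with h6 | h6 <;> rcases h5 j k with h7 | h7 <;>
      simp [Matrix.one_apply_ne hjk, h6, h7, normSq_apply]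

theorem flat_of_symm {b : ℕ} (H : Matrix (Fin (b + 1)) (Fin (b + 1)) ℤ) (l : ℤ) (hl : l ≤ b + 1)
    (hs : H.IsSymm) (h1 : ∀ i j, i ≠ j → H i j = 1 ∨ H i j = -1) (h2 : H * H = l • 1) :
    Flat (Fin b) := by
  set v : Fin b → ℤ := fun j ↦ H 0 j.succ with hv
  set Q : Matrix (Fin b) (Fin b) ℤ := fun j k ↦ H j.succ k.succ with hQ
  set J : Matrix (Fin b) (Fin b) ℤ := fun j k ↦ v j * v k with hJ
  have hv1 : ∀ j, v j = 1 ∨ v j = -1 := fun j ↦ h1 _ _ (Fin.succ_ne_zero j).symm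
  have hv2 : ∀ j, v j * v j = 1 := fun j ↦ by rcases hv1 j with h | h <;> simp [h]
  have hv3 : ∀ j : Fin b, H j.succ 0 = v j := fun j ↦ hs.apply _ _
  have hq : ∀ j k, Q j k = Q k j := fun j k ↦ hs.apply _ _
  have e0 : ∀ j, ∑ k, Q j k * v k = -H 0 0 * v j := fun j ↦ by
    have := congrFun (congrFun h2 j.succ) 0
    rw [Matrix.mul_apply, Fin.sum_univ_succ, Matrix.smul_apply,
      Matrix.one_apply_ne (Fin.succ_ne_zero j), smul_zero] at this
    simp only [hv3] at this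
    have e : ∑ k, Q j k * v k = ∑ k : Fin b, H j.succ k.succ * v k := rfl
    rw [e]
    linear_combination this
  have e1 : Q * Q = l • 1 - J := by
    ext j k
    have := congrFun (congrFun h2 j.succ) k.succ
    rw [Matrix.mul_apply, Fin.sum_univ_succ, Matrix.smul_apply, hv3] at this
    have e : (1 : Matrix (Fin (b + 1)) (Fin (b + 1)) ℤ) j.succ k.succ =
        (1 : Matrix (Fin b) (Fin b) ℤ) j k := by simp [Matrix.one_apply]
    rw [Matrix.mul_apply, Matrix.sub_apply, Matrix.smul_apply, ← e, ← this]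
    simp only [hJ, hQ, hv]
    ring
  have e2 : Q * J = J * Q := by
    ext j k
    simp only [Matrix.mul_apply, hJ]
    have a1 : ∑ i, Q j i * (v i * v k) = (∑ i, Q j i * v i) * v k := by
      rw [Finset.sum_mul]
      exact Finset.sum_congr rfl fun i _ ↦ by ring
    have a2 : ∑ i, v j * v i * Q i k = v j * ∑ i, Q k i * v i := by
      rw [Finset.mul_sum]
      exact Finset.sum_congr rfl fun i _ ↦ by rw [hq i k]; ring
    rw [a1, a2, e0, e0]
    ring
  have e3 : J * J = (b : ℤ) • J := by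
    ext j k
    simp only [Matrix.mul_apply, hJ, Matrix.smul_apply]
    rw [Finset.sum_congr rfl fun i _ ↦
      show v j * v i * (v i * v k) = v j * v k by linear_combination v j * v k * hv2 i]
    simp
  set φ : Matrix (Fin b) (Fin b) ℤ →+* Matrix (Fin b) (Fin b) ℂ :=
    (Int.castRingHom ℂ).mapMatrix with hφ
  have hφ1 : ∀ A j k, φ A j k = (A j k : ℂ) := fun _ _ _ ↦ rfl
  refine flat_of_core (φ Q) (φ J) l (by rw [Fintype.card_fin]; exact_mod_cast hl) ?_ ?_ ?_ ?_ ?_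
    (fun j k hjk ↦ ?_) fun j k ↦ ?_
  · ext j k
    simp [Matrix.conjTranspose_apply, hφ1, hq j k]
  · ext j k
    simp [Matrix.conjTranspose_apply, hφ1, hJ, mul_comm]
  · rw [← map_mul, e1, map_sub, map_zsmul, map_one, ofReal_intCast, Int.cast_smul_eq_zsmul]
  · rw [← map_mul, ← map_mul, e2]
  · rw [← map_mul, e3, map_zsmul, Fintype.card_fin, ← Int.cast_smul_eq_zsmul ℂ, Int.cast_natCast]
  · rcases h1 j.succ k.succ (fun h ↦ hjk (Fin.succ_injective _ h)) with h | h <;>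
      simp [hφ1, hQ, h]
  · rcases hv1 j with h | h <;> rcases hv1 k with h' | h' <;> simp [hφ1, hJ, h, h']

theorem flat_of_skew_core {β : Type} [Fintype β] [DecidableEq β] (Q J : Matrix β β ℂ)
    (hQ : Qᴴ = -Q) (hJ : Jᴴ = J) (h1 : Q * Q = J - (Fintype.card β : ℂ) • 1)
    (h2 : Q * J = 0) (h2' : J * Q = 0) (h3 : J * J = (Fintype.card β : ℂ) • J)
    (h4 : ∀ j k, j ≠ k → Q j k = 1 ∨ Q j k = -1) (h5 : ∀ j k, J j k = 1 ∨ J j k = -1) :
    Flat β := by
  intro N hN
  rcases isEmpty_or_nonempty β with h | h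
  · exact ⟨1, Subsingleton.elim _ _, fun j ↦ isEmptyElim j⟩
  set b : ℝ := (Fintype.card β : ℝ) with hb
  have hb0 : 0 < b := by rw [hb]; exact_mod_cast Fintype.card_pos
  have h0 : 0 < N := lt_of_lt_of_le hb0 hN
  obtain ⟨y, hy⟩ : ∃ y : ℝ, y * y = 1 / (N * (b + 1)) := ⟨_, Real.mul_self_sqrt (by positivity)⟩
  obtain ⟨x, hx⟩ : ∃ x : ℝ, x * x = b / (N * (b + 1)) := ⟨_, Real.mul_self_sqrt (by positivity)⟩
  obtain ⟨z, hz⟩ : ∃ z : ℝ, z * z = 1 - b / (N * (b + 1)) * b := ⟨_, Real.mul_self_sqrt (by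
    rw [sub_nonneg, div_mul_eq_mul_div, div_le_one (by positivity)]
    nlinarith)⟩
  have e1 : x * x + y * y = 1 / N := by
    rw [hx, hy]
    field_simp
  have e2 : y * y * b = x * x := by
    rw [hx, hy]
    ring
  have e3 : x * x * b + z * z = 1 := by
    rw [hx, hz]
    ring
  have a2 : (y : ℂ) * y * (Fintype.card β : ℂ) = x * x := by
    rw [hb] at e2
    exact_mod_cast e2
  have a3 : (x : ℂ) * x * (Fintype.card β : ℂ) + z * z = 1 := by
    rw [hb] at e3
    exact_mod_cast e3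
  refine ⟨(x : ℂ) • Q + ((y : ℂ) * I) • J + (z : ℂ) • 1, ?_, fun j k hjk ↦ ?_⟩
  · simp only [Matrix.conjTranspose_smul, Matrix.conjTranspose_add, Matrix.conjTranspose_one, hQ,
      hJ, Matrix.smul_mul, Matrix.mul_smul, Matrix.add_mul, Matrix.mul_add, Matrix.one_mul,
      Matrix.mul_one, Matrix.mul_neg, h1, h2, h2', h3, star_mul', RCLike.star_def, conj_ofReal,
      conj_I]
    match_scalars
    all_goals first
      | ring1
      | linear_combination a3
      | linear_combination a2 - (y : ℂ) * y * (Fintype.card β : ℂ) * I_mul_I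
  · rw [← e1]
    rcases h4 j k hjk with h6 | h6 <;> rcases h5 j k with h7 | h7 <;>
      simp [Matrix.one_apply_ne hjk, h6, h7, normSq_apply]

theorem flat_of_skew {b : ℕ} (H : Matrix (Fin (b + 1)) (Fin (b + 1)) ℤ)
    (hs : Hᵀ = -H) (h1 : ∀ i j, i ≠ j → H i j = 1 ∨ H i j = -1) (h2 : H * Hᵀ = (b : ℤ) • 1) :
    Flat (Fin b) := by
  set v : Fin b → ℤ := fun j ↦ H 0 j.succ with hv
  set Q : Matrix (Fin b) (Fin b) ℤ := fun j k ↦ H j.succ k.succ with hQ
  set J : Matrix (Fin b) (Fin b) ℤ := fun j k ↦ v j * v k with hJ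
  have hs' : ∀ i j, H j i = -H i j := fun i j ↦ congrFun (congrFun hs i) j
  have hv1 : ∀ j, v j = 1 ∨ v j = -1 := fun j ↦ h1 _ _ (Fin.succ_ne_zero j).symm
  have hv2 : ∀ j, v j * v j = 1 := fun j ↦ by rcases hv1 j with h | h <;> simp [h]
  have hv3 : ∀ j : Fin b, H j.succ 0 = -v j := fun j ↦ hs' _ _
  have hq : ∀ j k, Q j k = -Q k j := fun j k ↦ hs' _ _
  have h00 : H 0 0 = 0 := by linarith [hs' 0 0]
  have e0 : ∀ j, ∑ k, Q j k * v k = 0 := fun j ↦ by
    have := congrFun (congrFun h2 j.succ) 0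
    rw [Matrix.mul_apply, Fin.sum_univ_succ, Matrix.smul_apply,
      Matrix.one_apply_ne (Fin.succ_ne_zero j), smul_zero] at this
    simp only [Matrix.transpose_apply, h00, mul_zero, zero_add] at this
    exact this
  have e1 : Q * Q = J - (b : ℤ) • 1 := by
    ext j k
    have := congrFun (congrFun h2 j.succ) k.succ
    rw [Matrix.mul_apply, Fin.sum_univ_succ, Matrix.smul_apply] at this
    simp only [Matrix.transpose_apply, hv3] at this
    have e : (1 : Matrix (Fin (b + 1)) (Fin (b + 1)) ℤ) j.succ k.succ =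
        (1 : Matrix (Fin b) (Fin b) ℤ) j k := by simp [Matrix.one_apply]
    have a1 : ∑ i, Q j i * Q i k = -∑ i : Fin b, H j.succ i.succ * H k.succ i.succ := by
      rw [← Finset.sum_neg_distrib]
      exact Finset.sum_congr rfl fun i _ ↦ by rw [hq i k, mul_neg]
    rw [Matrix.mul_apply, Matrix.sub_apply, Matrix.smul_apply, ← e, ← this, a1]
    simp only [hJ]
    ring
  have e2 : Q * J = 0 := by
    ext j k
    simp only [Matrix.mul_apply, hJ]
    have a1 : ∑ i, Q j i * (v i * v k) = (∑ i, Q j i * v i) * v k := by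
      rw [Finset.sum_mul]
      exact Finset.sum_congr rfl fun i _ ↦ by ring
    rw [a1, e0, zero_mul, Matrix.zero_apply]
  have e2' : J * Q = 0 := by
    ext j k
    simp only [Matrix.mul_apply, hJ]
    have a2 : ∑ i, v j * v i * Q i k = -v j * ∑ i, Q k i * v i := by
      rw [Finset.mul_sum]
      exact Finset.sum_congr rfl fun i _ ↦ by rw [hq i k]; ring
    rw [a2, e0, mul_zero, Matrix.zero_apply]
  have e3 : J * J = (b : ℤ) • J := by
    ext j k
    simp only [Matrix.mul_apply, hJ, Matrix.smul_apply]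
    rw [Finset.sum_congr rfl fun i _ ↦
      show v j * v i * (v i * v k) = v j * v k by linear_combination v j * v k * hv2 i]
    simp
  set φ : Matrix (Fin b) (Fin b) ℤ →+* Matrix (Fin b) (Fin b) ℂ :=
    (Int.castRingHom ℂ).mapMatrix with hφ
  have hφ1 : ∀ A j k, φ A j k = (A j k : ℂ) := fun _ _ _ ↦ rfl
  refine flat_of_skew_core (φ Q) (φ J) ?_ ?_ ?_ ?_ ?_ ?_ (fun j k hjk ↦ ?_) fun j k ↦ ?_
  · ext j k
    simp [Matrix.conjTranspose_apply, hφ1, hq k j]
  · ext j k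
    simp [Matrix.conjTranspose_apply, hφ1, hJ, mul_comm]
  · rw [← map_mul, e1, map_sub, map_zsmul, map_one, Fintype.card_fin,
      ← Int.cast_smul_eq_zsmul ℂ, Int.cast_natCast]
  · rw [← map_mul, e2, map_zero]
  · rw [← map_mul, e2', map_zero]
  · rw [← map_mul, e3, map_zsmul, Fintype.card_fin, ← Int.cast_smul_eq_zsmul ℂ, Int.cast_natCast]
  · rcases h1 j.succ k.succ (fun h ↦ hjk (Fin.succ_injective _ h)) with h | h <;>
      simp [hφ1, hQ, h]
  · rcases hv1 j with h | h <;> rcases hv1 k with h' | h' <;> simp [hφ1, hJ, h, h']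

theorem upper_had {n a b t : ℕ} (h0 : 0 < a * b) (h : a * b + t = n) (ha : a ∣ n)
    (H : Matrix (Fin (b + 1)) (Fin (b + 1)) ℤ) (h1 : ∀ i j, i ≠ j → H i j = 1 ∨ H i j = -1)
    (h2 : (Hᵀ = H ∧ H * Hᵀ = (b + 1 : ℤ) • 1) ∨ ((Hᵀ = H ∨ Hᵀ = -H) ∧ H * Hᵀ = (b : ℤ) • 1)) :
    chiD (Omega n) (a * b) ≤ a * b * 2 ^ t := by
  obtain ⟨s, rfl⟩ : a ∣ t := (Nat.dvd_add_right (dvd_mul_right a _)).1 (h ▸ ha)
  have hf : Flat (Fin b) := by
    rcases h2 with ⟨hs, h2⟩ | ⟨hs | hs, h2⟩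
    · exact flat_of_symm H _ le_rfl hs h1 (by rwa [hs] at h2)
    · exact flat_of_symm H b (by omega) hs h1 (by rwa [hs] at h2)
    · exact flat_of_skew H hs h1 h2
  have := QE.UpA.upper_dvd hf (n := n) (a := a) (s := s)
    (Nat.pos_of_mul_pos_right h0) (by rwa [Fintype.card_fin])
  rwa [Fintype.card_fin] at this

end Pool.Agent.Lib.MP_5d53d3_co
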