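import Pool.Agent.Lib.MP_5d53d3_co.Exact2
import Pool.Agent.Lib.MP_5d53d3_co.Upper4

/-! The exact value near the top: even dimensions, and odd ones from prime powers, squares,
symmetric Hadamard matrices and conference matrices. -/

open scoped Matrix

namespace Pool.Agent.Lib.MP_5d53d3_co

theorem exact_had : ∃ K : ℕ, ∀ n d t : ℕ, 4 ∣ n → d + t = n → 2 ^ (K * (t + 1)) ≤ n →
    (Even d ∨ ∃ a b, a * b = d ∧ a ∣ n ∧ (IsPrimePow b ∨ IsSquare b ∨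
      ∃ H : Matrix (Fin (b + 1)) (Fin (b + 1)) ℤ, (∀ i j, i ≠ j → H i j = 1 ∨ H i j = -1) ∧
        ((Hᵀ = H ∧ H * Hᵀ = (b + 1 : ℤ) • 1) ∨ ((Hᵀ = H ∨ Hᵀ = -H) ∧ H * Hᵀ = (b : ℤ) • 1)))) →
    chiD (Omega n) d = d * 2 ^ t := by
  obtain ⟨K, hK⟩ := QE.fin_all
  obtain ⟨K', hK'⟩ := exact_even
  refine ⟨K + K' + 1, fun n d t h4 h hn hd => ?_⟩
  have hn1 : 2 ^ (K * (t + 1)) ≤ n := le_trans (Nat.pow_le_pow_right two_pos (by nlinarith)) hn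
  have hn2 : 2 ^ (K' * (t + 1)) ≤ n := le_trans (Nat.pow_le_pow_right two_pos (by nlinarith)) hn
  have h1 : t + 1 < 2 ^ (t + 1) := Nat.lt_two_pow_self
  have h2 : 2 ^ (t + 1) ≤ 2 ^ ((K + K' + 1) * (t + 1)) :=
    Nat.pow_le_pow_right two_pos (by nlinarith)
  have h0 : 0 < d := by omega
  rcases hd with he | ⟨a, b, hab, ha, hb | hb | ⟨H, h5, h6⟩⟩
  · exact hK' n d t h4 h hn2 (Or.inl he)
  · exact hK' n d t h4 h hn2 (Or.inr ⟨a, b, hab, ha, Or.inl hb⟩)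
  · exact hK' n d t h4 h hn2 (Or.inr ⟨a, b, hab, ha, Or.inr hb⟩)
  · subst hab
    exact le_antisymm (upper_had h0 h ha H h5 h6) (hK n _ t h4 h hn1)

end Pool.Agent.Lib.MP_5d53d3_co
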