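import Pool.Agent.Lib.MP_5d53d3_co.Cube

/-! Eigenvalues of the orthogonality graph. -/

open Finset
open scoped symmDiff BigOperators

namespace Pool.Agent.Lib.MP_5d53d3_co

variable {n : ℕ}

/-- indicator of balanced sign vectors with product one -/
noncomputable def hz (z : X n) : ℝ := if ∑ i, sg z i = 0 ∧ ch univ z = 1 then 1 else 0

/-- normalised eigenvalues -/
noncomputable def lam (n : ℕ) : ℕ → ℝ
  | 0 => 1
  | 1 => 0
  | j + 2 => -((j + 1) / (n - j - 1)) * lam n j

theorem ch_compl (U : Finset (Fin n)) (x : X n) : ch Uᶜ x = ch U x * ch univ x := by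
  rw [ch_mul]
  congr 1
  ext i
  simp [Finset.mem_symmDiff]

theorem fc_hz_compl (U : Finset (Fin n)) : fc hz Uᶜ = fc hz U := by
  refine Finset.expect_congr rfl fun x _ ↦ ?_
  rw [ch_compl, hz]
  split_ifs with h
  · rw [h.2, mul_one]
  · simp

theorem fc_hz_pos (hn : 4 ∣ n) : 0 < fc (hz (n := n)) ∅ := by
  obtain ⟨m, rfl⟩ := hn
  simp only [fc, ch_empty, one_mul]
  refine Finset.expect_pos' (fun x _ ↦ by unfold hz; split_ifs <;> norm_num) ?_
  refine ⟨fun i ↦ if (i : ℕ) < 2 * m then -1 else 1, mem_univ _, ?_⟩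
  have h1 : ∀ i : Fin (4 * m), sg (fun i : Fin (4 * m) ↦ if (i : ℕ) < 2 * m then -1 else 1) i =
      if (i : ℕ) < 2 * m then -1 else 1 := fun i ↦ by
    unfold sg
    split_ifs with h <;> simp [h]
  have h2 : (Finset.range (4 * m)).filter (· < 2 * m) = Finset.range (2 * m) := by
    ext i
    simp only [mem_filter, mem_range]
    omega
  have h3 : ((Finset.range (4 * m)).filter fun i ↦ ¬ i < 2 * m).card = 2 * m := by
    have := Finset.card_filter_add_card_filter_not (s := Finset.range (4 * m)) (· < 2 * m)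
    rw [h2, card_range, card_range] at this
    omega
  rw [hz, if_pos]
  · norm_num
  simp only [ch, h1]
  rw [Fin.sum_univ_eq_sum_range (fun i ↦ if i < 2 * m then (-1 : ℝ) else 1),
    Fin.prod_univ_eq_prod_range (fun i ↦ if i < 2 * m then (-1 : ℝ) else 1), Finset.sum_ite,
    Finset.prod_ite, h2]
  simp only [sum_const, prod_const, card_range, h3, one_pow, mul_one]
  simp

theorem fc_hz_swap {U : Finset (Fin n)} {i j : Fin n} (hi : i ∉ U) (hj : j ∉ U) :
    fc hz (insert i U) = fc hz (insert j U) := by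
  refine Fintype.expect_equiv (Equiv.arrowCongr (Equiv.swap i j) (Equiv.refl _)) _ _ fun x ↦ ?_
  have h1 : ∀ k, sg (Equiv.arrowCongr (Equiv.swap i j) (Equiv.refl _) x) k =
      sg x (Equiv.swap i j k) := fun k ↦ by simp [sg]
  have h2 : ∀ k ∈ U, Equiv.swap i j k = k := fun k hk ↦
    Equiv.swap_apply_of_ne_of_ne (fun h ↦ hi (h ▸ hk)) (fun h ↦ hj (h ▸ hk))
  simp only [hz, ch, h1, Finset.prod_insert hi, Finset.prod_insert hj, Equiv.swap_apply_right,
    Equiv.sum_comp (Equiv.swap i j) (sg x), Equiv.prod_comp (Equiv.swap i j) (sg x)]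
  congr 2
  exact Finset.prod_congr rfl fun k hk ↦ by rw [h2 k hk]

theorem fc_hz_rec (U : Finset (Fin n)) :
    ∑ i ∈ U, fc hz (U.erase i) + ∑ i ∈ Uᶜ, fc hz (insert i U) = 0 := by
  simp only [fc]
  rw [← Finset.expect_sum_comm, ← Finset.expect_sum_comm, ← Finset.expect_add_distrib]
  refine Finset.expect_eq_zero fun x _ ↦ ?_
  have h1 : ∀ i ∈ U, ch (U.erase i) x * hz x = sg x i * (ch U x * hz x) := fun i hi ↦ by
    rw [ch, ch, ← Finset.mul_prod_erase U (sg x) hi]
    linear_combination (-(∏ j ∈ U.erase i, sg x j) * hz x) * sg_sq x i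
  have h2 : ∀ i ∈ Uᶜ, ch (insert i U) x * hz x = sg x i * (ch U x * hz x) := fun i hi ↦ by
    rw [ch, ch, Finset.prod_insert (Finset.mem_compl.1 hi), mul_assoc]
  rw [Finset.sum_congr rfl h1, Finset.sum_congr rfl h2, Finset.sum_add_sum_compl, ← Finset.sum_mul,
    hz]
  split_ifs with h
  · rw [h.1, zero_mul]
  · simp

theorem fc_hz_step {U : Finset (Fin n)} {i : Fin n} (hi : i ∈ U) :
    ∑ k ∈ U.erase i, fc hz ((U.erase i).erase k) + (n - (U.erase i).card) * fc hz U = 0 := by
  have h := fc_hz_rec (U.erase i)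
  have h1 : ∀ k ∈ (U.erase i)ᶜ, fc hz (insert k (U.erase i)) = fc hz U := fun k hk ↦ by
    rw [fc_hz_swap (Finset.mem_compl.1 hk) (Finset.notMem_erase i U), Finset.insert_erase hi]
  rw [Finset.sum_congr rfl h1, Finset.sum_const, Finset.card_compl, Fintype.card_fin,
    nsmul_eq_mul, Nat.cast_sub (by simpa using Finset.card_le_univ (U.erase i))] at h
  exact h

theorem fc_hz_eq : ∀ (j : ℕ) (U : Finset (Fin n)), U.card = j →
    fc hz U = fc (hz (n := n)) ∅ * lam n j
  | 0, U, h => by simp [Finset.card_eq_zero.1 h, lam]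
  | 1, U, h => by
    obtain ⟨i, rfl⟩ := Finset.card_eq_one.1 h
    have h1 := fc_hz_step (Finset.mem_singleton_self i)
    have h2 : (n : ℝ) ≠ 0 := by exact_mod_cast (Fin.pos i).ne'
    simpa [lam, h2] using h1
  | j + 2, U, h => by
    obtain ⟨i, hi⟩ : U.Nonempty := Finset.card_pos.1 (by omega)
    have h1 := fc_hz_step hi
    have h2 : (U.erase i).card = j + 1 := by rw [Finset.card_erase_of_mem hi]; omega
    rw [Finset.sum_congr rfl fun k hk ↦ fc_hz_eq j _
      (by rw [Finset.card_erase_of_mem hk]; omega), Finset.sum_const, h2] at h1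
    have h3 : j + 2 ≤ n := by simpa [h] using Finset.card_le_univ U
    have h4 : (n : ℝ) - j - 1 ≠ 0 := by
      have : (j : ℝ) + 2 ≤ n := by exact_mod_cast h3
      linarith
    rw [lam]
    field_simp
    simp only [nsmul_eq_mul] at h1
    push_cast at h1
    linarith

theorem lam_two : lam n 2 = -(1 / (n - 1)) := by simp [lam]

theorem lam_odd : ∀ m : ℕ, lam n (2 * m + 1) = 0
  | 0 => rfl
  | m + 1 => by
    rw [show 2 * (m + 1) + 1 = 2 * m + 1 + 2 by ring, lam, lam_odd m, mul_zero]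

theorem lam_even {p : ℕ} (hn : 0 < n) : ∀ m : ℕ, 4 * m ≤ n →
    |lam n (2 * m)| ≤ (4 * p / n : ℝ) ^ min m p
  | 0, _ => by simp [lam]
  | m + 1, h => by
    have ih := lam_even (p := p) hn m (by omega)
    have h1 : (4 : ℝ) * (m + 1) ≤ n := by exact_mod_cast h
    have h0 : (0 : ℝ) ≤ m := Nat.cast_nonneg m
    have hn' : (0 : ℝ) < n := by positivity
    have h2 : (0 : ℝ) < n - (2 * m : ℕ) - 1 := by push_cast; linarith
    rw [show 2 * (m + 1) = 2 * m + 2 by ring, lam, abs_mul, abs_neg,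
      abs_of_nonneg (by positivity)]
    rcases lt_or_ge m p with hm | hm
    · rw [min_eq_left hm.le] at ih
      rw [min_eq_left hm, pow_succ']
      refine mul_le_mul ?_ ih (abs_nonneg _) (by positivity)
      have h3 : (m : ℝ) + 1 ≤ p := by exact_mod_cast hm
      rw [div_le_div_iff₀ h2 hn']
      push_cast
      nlinarith
    · rw [min_eq_right hm] at ih
      rw [min_eq_right (by omega)]
      refine (mul_le_of_le_one_left (abs_nonneg _) ?_).trans ih
      rw [div_le_one h2]
      push_cast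
      linarith

end Pool.Agent.Lib.MP_5d53d3_co
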