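import Pool.Agent.Lib.MP_5d53d3_co.Kraw

/-! Level estimates for vector valued functions with a nonnegative Gram kernel. -/

open Finset
open scoped symmDiff BigOperators

namespace Pool.Agent.Lib.MP_5d53d3_co

variable {n : ℕ} {ι : Type} [Fintype ι]

/-- indicator function -/
noncomputable def ind (S : Finset (X n)) (x : X n) : ℝ := if x ∈ S then 1 else 0

/-- density -/
noncomputable def den (S : Finset (X n)) : ℝ := 𝔼 x, ind S x

/-- Gram kernel -/
def gk (P : ι → X n → ℝ) (x y : X n) : ℝ := ∑ a, P a x * P a y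

structure Rep (S : Finset (X n)) (P : ι → X n → ℝ) : Prop where
  off : ∀ x, x ∉ S → ∀ a, P a x = 0
  le1 : ∀ x, ∑ a, P a x ^ 2 ≤ 1
  pos : ∀ x y, 0 ≤ gk P x y

theorem ind_nonneg (S : Finset (X n)) (x : X n) : 0 ≤ ind S x := by
  unfold ind
  split_ifs <;> norm_num

theorem den_nonneg (S : Finset (X n)) : 0 ≤ den S := Finset.expect_nonneg fun x _ ↦ ind_nonneg S x

variable {S : Finset (X n)} {P : ι → X n → ℝ} {p : ℕ}

theorem on_set (hp : ∃ k, p = 2 * 2 ^ k) (hσ : 1 / 2 ^ p ≤ den S) {D : ℕ} {f : X n → ℝ}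
    (hf : f ∈ V univ D) {N : ℝ} (hN : 0 ≤ N) (h : 𝔼 x, f x ^ 2 ≤ N ^ 2) {j : ℕ} (hj : j ≤ 2) :
    𝔼 x, ind S x * |f x| ^ j ≤ 2 * (2 * p ^ D * N) ^ j * den S := by
  have h1 := tail hp hf hN h hj
  set a : ℝ := 2 * p ^ D * N
  have ha : 0 ≤ a := by positivity
  have h2 : ∀ x, ind S x * |f x| ^ j ≤ a ^ j * ind S x + if a < |f x| then |f x| ^ j else 0 := by
    intro x
    have h3 : 0 ≤ a ^ j := by positivity
    have h4 : 0 ≤ |f x| ^ j := by positivity
    unfold ind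
    split_ifs with h5 h6 h6
    · linarith
    · simpa using pow_le_pow_left₀ (abs_nonneg _) (not_lt.1 h6) j
    · simp
    · simp
  refine (Finset.expect_le_expect fun x _ ↦ h2 x).trans ?_
  rw [Finset.expect_add_distrib, ← Finset.mul_expect]
  have h3 : a ^ j / 2 ^ p ≤ a ^ j * den S := by
    rw [div_eq_mul_one_div]
    exact mul_le_mul_of_nonneg_left hσ (by positivity)
  unfold den at *
  linarith

theorem Rep.sq_le (R : Rep S P) : 𝔼 x, ∑ a, P a x ^ 2 ≤ den S := by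
  refine Finset.expect_le_expect fun x _ ↦ ?_
  unfold ind
  split_ifs with h
  · exact R.le1 x
  · simp [R.off x h]

theorem Rep.gk_le (R : Rep S P) (x y : X n) : gk P x y ≤ 1 := by
  have h := Finset.sum_mul_sq_le_sq_mul_sq univ (fun a ↦ P a x) fun a ↦ P a y
  have h1 := mul_le_mul (R.le1 x) (R.le1 y) (by positivity) zero_le_one
  exact (abs_le_of_sq_le_sq' (b := 1) (by simpa [gk] using h.trans h1) zero_le_one).2

/-- the basic Bessel type inequality -/
theorem Rep.bessel (R : Rep S P) (Q : ι → X n → ℝ) :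
    (𝔼 x, ∑ a, P a x * Q a x) ^ 2 ≤ den S * 𝔼 x, ind S x * ∑ a, Q a x ^ 2 := by
  have h := cs P fun a x ↦ ind S x * Q a x
  have e1 : ∀ x, ∑ a, P a x * (ind S x * Q a x) = ∑ a, P a x * Q a x := fun x ↦ by
    unfold ind
    split_ifs with h
    · simp
    · simp [R.off x h]
  have e2 : ∀ x, ∑ a, (ind S x * Q a x) ^ 2 = ind S x * ∑ a, Q a x ^ 2 := fun x ↦ by
    unfold ind
    split_ifs <;> simp
  simp only [e1, e2] at h
  exact h.trans (mul_le_mul_of_nonneg_right R.sq_le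
    (Finset.expect_nonneg fun x _ ↦ mul_nonneg (ind_nonneg S x) (by positivity)))

theorem pair_eq {α : Type*} (T : Finset α) (φ : α → Finset (Fin n)) (P : ι → X n → ℝ) :
    𝔼 x, ∑ a, P a x * ∑ t ∈ T, fc (P a) (φ t) * ch (φ t) x =
      ∑ a, ∑ t ∈ T, fc (P a) (φ t) ^ 2 := by
  rw [Finset.expect_sum_comm]
  refine Finset.sum_congr rfl fun a _ ↦ ?_
  simp only [Finset.mul_sum]
  rw [Finset.expect_sum_comm]
  refine Finset.sum_congr rfl fun t _ ↦ ?_
  rw [sq]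
  nth_rewrite 3 [fc]
  rw [Finset.mul_expect]
  exact Finset.expect_congr rfl fun x _ ↦ by ring

theorem le_of_sq_le_mul {w c : ℝ} (hc : 0 ≤ c) (h : w ^ 2 ≤ c * w) : w ≤ c := by
  by_contra h1
  push Not at h1
  nlinarith

theorem Rep.total (R : Rep S P) : ∑ a, ∑ U, fc (P a) U ^ 2 ≤ den S := by
  have h := R.bessel fun a x ↦ ∑ U, fc (P a) U * ch U x
  rw [pair_eq univ (fun U ↦ U) P] at h
  refine le_of_sq_le_mul (den_nonneg S) (h.trans (mul_le_mul_of_nonneg_left ?_ (den_nonneg S)))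
  calc _ ≤ 𝔼 x, ∑ a, (∑ U, fc (P a) U * ch U x) ^ 2 := Finset.expect_le_expect fun x _ ↦
        mul_le_of_le_one_left (by positivity) (by unfold ind; split_ifs <;> norm_num)
    _ ≤ _ := by
      rw [Finset.expect_sum_comm]
      refine Finset.sum_le_sum fun a _ ↦ ?_
      simpa using ex_sq_le univ (fun U ↦ U) (fc (P a)) (m := 1) fun U ↦ by
        simp [Finset.filter_eq']

theorem Rep.level (R : Rep S P) (hp : ∃ k, p = 2 * 2 ^ k) (hσ : 1 / 2 ^ p ≤ den S) {α : Type*}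
    (T : Finset α) (φ : α → Finset (Fin n)) {D m : ℕ} (hD : ∀ t ∈ T, (φ t).card ≤ D)
    (hm : ∀ U, (T.filter fun t ↦ φ t = U).card ≤ m) :
    ∑ a, ∑ t ∈ T, fc (P a) (φ t) ^ 2 ≤ 8 * m * p ^ (2 * D) * den S ^ 2 := by
  have h := R.bessel fun a x ↦ ∑ t ∈ T, fc (P a) (φ t) * ch (φ t) x
  rw [pair_eq T φ P] at h
  have h0 := den_nonneg S
  refine le_of_sq_le_mul (by positivity) (h.trans ?_)
  simp only [Finset.mul_sum univ _ (ind S _)]
  rw [Finset.expect_sum_comm, Finset.mul_sum, Finset.mul_sum]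
  refine Finset.sum_le_sum fun a _ ↦ ?_
  have h1 := ex_sq_le T φ (fun t ↦ fc (P a) (φ t)) hm
  have h2 := on_set hp hσ (sum_mem T φ (fun t ↦ fc (P a) (φ t)) hD) (Real.sqrt_nonneg _)
    (h1.trans (Real.sq_sqrt (by positivity)).ge) le_rfl
  simp only [sq_abs, mul_pow] at h2
  rw [Real.sq_sqrt (by positivity)] at h2
  refine (mul_le_mul_of_nonneg_left h2 h0).trans (le_of_eq ?_)
  ring

theorem gram_eq {κ : Type} [Fintype κ] (φ : κ → X n → ℝ) (g : X n → ℝ) (P : ι → X n → ℝ) :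
    ∑ a, ∑ k, (𝔼 x, g x * φ k x * P a x) ^ 2 =
      𝔼 x, 𝔼 y, g x * g y * (∑ k, φ k x * φ k y) * gk P x y := by
  simp only [sq, Finset.expect_mul_expect, gk, Finset.mul_sum, Finset.sum_mul,
    ← Finset.expect_sum_comm]
  refine Finset.expect_congr rfl fun x _ ↦ Finset.expect_congr rfl fun y _ ↦
    Finset.sum_congr rfl fun a _ ↦ Finset.sum_congr rfl fun k _ ↦ by ring

/-- truncation estimate -/
theorem Rep.trunc (R : Rep S P) (hp : ∃ k, p = 2 * 2 ^ k) {κ : Type} [Fintype κ]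
    (φ : κ → X n → ℝ) (hφ : ∀ k x, |φ k x| ≤ 1) {D : ℕ} {f : X n → ℝ} (hf : f ∈ V univ D) {M : ℝ}
    (hM : 0 ≤ M) (h : 𝔼 x, f x ^ 2 ≤ M) :
    ∑ a, ∑ k, (𝔼 x, f x * φ k x * P a x) ^ 2 ≤ 8 * p ^ (2 * D) * M *
      ((𝔼 x, 𝔼 y, |∑ k, φ k x * φ k y| * gk P x y) + Fintype.card κ * (1 / 2 ^ p) ^ 2) := by
  have h1 := tail hp hf (Real.sqrt_nonneg M) (h.trans (Real.sq_sqrt hM).ge) one_le_two
  set a : ℝ := 2 * p ^ D * √M with ha
  have ha0 : 0 ≤ a := by positivity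
  have ha2 : 8 * p ^ (2 * D) * M = 2 * a ^ 2 := by
    rw [ha, mul_pow, mul_pow, Real.sq_sqrt hM]
    ring
  simp only [pow_one] at h1
  set f1 : X n → ℝ := fun x ↦ if a < |f x| then 0 else f x with hf1
  set f2 : X n → ℝ := fun x ↦ if a < |f x| then f x else 0 with hf2
  have e1 : ∀ x, f x = f1 x + f2 x := fun x ↦ by
    simp only [hf1, hf2]
    split_ifs <;> simp
  have e2 : ∀ x, |f1 x| ≤ a := fun x ↦ by
    simp only [hf1]
    split_ifs with h
    · simpa using ha0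
    · exact not_lt.1 h
  have e3 : 𝔼 x, |f2 x| ≤ a / 2 ^ p := le_of_eq_of_le (Finset.expect_congr rfl fun x _ ↦ by
    simp only [hf2]
    split_ifs <;> simp) h1
  have b1 : ∑ a, ∑ k, (𝔼 x, f1 x * φ k x * P a x) ^ 2 ≤
      a ^ 2 * 𝔼 x, 𝔼 y, |∑ k, φ k x * φ k y| * gk P x y := by
    rw [gram_eq, Finset.mul_expect]
    refine Finset.expect_le_expect fun x _ ↦ ?_
    rw [Finset.mul_expect]
    refine Finset.expect_le_expect fun y _ ↦ ?_
    rw [← mul_assoc]
    refine mul_le_mul_of_nonneg_right ((le_abs_self _).trans ?_) (R.pos x y)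
    rw [abs_mul, abs_mul, sq]
    exact mul_le_mul_of_nonneg_right (mul_le_mul (e2 x) (e2 y) (abs_nonneg _) ha0) (abs_nonneg _)
  have b2 : ∑ a, ∑ k, (𝔼 x, f2 x * φ k x * P a x) ^ 2 ≤ Fintype.card κ * (a / 2 ^ p) ^ 2 := by
    rw [gram_eq]
    refine le_trans ?_ (mul_le_mul_of_nonneg_left (pow_le_pow_left₀
      (Finset.expect_nonneg fun _ _ ↦ abs_nonneg _) e3 2) (Nat.cast_nonneg _))
    rw [sq, Finset.expect_mul_expect, Finset.mul_expect]
    refine Finset.expect_le_expect fun x _ ↦ ?_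
    rw [Finset.mul_expect]
    refine Finset.expect_le_expect fun y _ ↦ ?_
    have c1 : |∑ k, φ k x * φ k y| ≤ Fintype.card κ := by
      refine (Finset.abs_sum_le_sum_abs _ _).trans ?_
      simpa using Finset.sum_le_card_nsmul univ (fun k ↦ |φ k x * φ k y|) 1 fun k _ ↦ by
        rw [abs_mul]
        exact mul_le_one₀ (hφ k x) (abs_nonneg _) (hφ k y)
    refine (le_abs_self _).trans ?_
    rw [abs_mul, abs_mul, abs_mul, abs_of_nonneg (R.pos x y), mul_comm (Fintype.card κ : ℝ)]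
    exact (mul_le_of_le_one_right (by positivity) (R.gk_le x y)).trans
      (mul_le_mul_of_nonneg_left c1 (by positivity))
  have b3 : ∑ a, ∑ k, (𝔼 x, f x * φ k x * P a x) ^ 2 ≤
      2 * ∑ a, ∑ k, (𝔼 x, f1 x * φ k x * P a x) ^ 2 +
        2 * ∑ a, ∑ k, (𝔼 x, f2 x * φ k x * P a x) ^ 2 := by
    simp only [Finset.mul_sum, ← Finset.sum_add_distrib]
    refine Finset.sum_le_sum fun a _ ↦ Finset.sum_le_sum fun k _ ↦ ?_
    have : 𝔼 x, f x * φ k x * P a x =
        (𝔼 x, f1 x * φ k x * P a x) + 𝔼 x, f2 x * φ k x * P a x := by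
      rw [← Finset.expect_add_distrib]
      exact Finset.expect_congr rfl fun x _ ↦ by rw [e1]; ring
    rw [this]
    exact add_sq_le.trans (le_of_eq (by ring))
  rw [ha2]
  have e4 : (a / 2 ^ p) ^ 2 = a ^ 2 * (1 / 2 ^ p) ^ 2 := by ring
  rw [e4] at b2
  linarith

end Pool.Agent.Lib.MP_5d53d3_co
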