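import Pool.Agent.Lib.MP_5d53d3_co.Spec
import Pool.Agent.Lib.MP_5d53d3_co.Defs

/-! The lower bound for quantum colourings in dimension below `n`. -/

open Finset
open scoped symmDiff BigOperators Matrix

namespace Pool.Agent.Lib.MP_5d53d3_co

variable {n : ℕ} {ι : Type} [Fintype ι] {S : Finset (X n)} {P : ι → X n → ℝ} {p : ℕ}

theorem den_le_one (S : Finset (X n)) : den S ≤ 1 :=
  (Finset.expect_le_expect (g := fun _ ↦ (1 : ℝ)) fun x _ ↦ by
    unfold ind; split_ifs <;> norm_num).trans (ex_const 1).le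

theorem Rep.dim (R : Rep S P) (hp : ∃ k, p = 2 * 2 ^ k) (hσ : n * (1 / 2 ^ p) ≤ den S)
    (hn : 4 ∣ n) (hn0 : 0 < n) (h : ∀ x y, ∑ i, sg x i * sg y i = 0 → gk P x y = 0) {ε : ℝ}
    (hε : ε ^ 2 = 1) (hS : ∀ x ∈ S, ch univ x = ε) {d r : ℝ} (hd : 0 ≤ d)
    (hw : den S ^ 2 ≤ d * ww P) (hr : 0 < r) (hrn : r ^ 4 = n) : n - d ≤ 2200 * p ^ 5 * r ^ 3 := by
  have hp2 : (2 : ℝ) ≤ p := by
    obtain ⟨k, rfl⟩ := hp
    have : 1 ≤ 2 ^ k := Nat.one_le_two_pow
    exact_mod_cast (by omega : 2 ≤ 2 * 2 ^ k)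
  have hn4 : (4 : ℝ) ≤ n := by exact_mod_cast Nat.le_of_dvd hn0 hn
  have hr3 : 0 < r ^ 3 := by positivity
  rcases le_total d n with hdn | hdn
  swap
  · exact le_trans (by linarith) (by positivity : (0 : ℝ) ≤ _)
  rcases le_total r (2200 * p ^ 5) with hc | hc
  · have := mul_le_mul_of_nonneg_right hc hr3.le
    nlinarith
  have hp5 : (32 : ℝ) ≤ p ^ 5 := by
    have := pow_le_pow_left₀ (by norm_num) hp2 5
    linarith
  have hr1 : 1 ≤ r := by linarith
  have hrn' : r ≤ n := hrn ▸ le_self_pow₀ hr1 (by norm_num)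
  set σ := den S with hσd
  set t : ℝ := 1 / 2 ^ p with ht
  have ht0 : 0 < t := by positivity
  have hσ0 : 0 < σ := lt_of_lt_of_le (by positivity) hσ
  have hσ1 : σ ≤ 1 := den_le_one S
  have htσ : t ≤ σ := le_trans (by nlinarith) hσ
  have w0 := ww_nonneg P
  have v0 := vv_nonneg P
  have hw1 : σ ^ 2 ≤ n * ww P := hw.trans (mul_le_mul_of_nonneg_right hdn w0)
  have ht2 : (n * t) ^ 2 ≤ σ ^ 2 := pow_le_pow_left₀ (by positivity) hσ 2
  have hw2 : n * t ^ 2 ≤ ww P := by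
    refine le_of_mul_le_mul_left (a := (n : ℝ)) ?_ (by linarith)
    nlinarith
  have hw3 : t ^ 2 ≤ ww P := le_trans (by nlinarith) hw2
  have a1 := R.vv_le hp htσ
  have a2 := R.ww_le hp htσ hn h hε hS (by
    have : (4 : ℝ) * p ^ 5 ≤ n := by linarith
    exact_mod_cast this)
  rw [← hσd] at a1 a2
  rw [← ht] at a2
  have b1 : 256 * (p : ℝ) ^ 11 ≤ r ^ 3 := by
    have c1 := pow_le_pow_left₀ (by positivity) hc 3
    have c2 : (p : ℝ) ^ 11 ≤ p ^ 15 := pow_le_pow_right₀ (by linarith) (by norm_num)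
    have c3 : (0 : ℝ) ≤ p ^ 15 := by positivity
    nlinarith
  have b2 : 256 * p ^ 11 / n ^ 2 * σ ^ 2 + t ^ 2 * σ ≤ 2 / (r * n) * σ ^ 2 := by
    have c1 : t ^ 2 * σ ≤ 1 / n ^ 2 * σ ^ 2 := by
      rw [div_mul_eq_mul_div, le_div_iff₀ (by positivity)]
      nlinarith [mul_le_mul_of_nonneg_left hσ1 (sq_nonneg (n * t))]
    have c2 : 256 * p ^ 11 / n ^ 2 + 1 / n ^ 2 ≤ 2 / (r * n : ℝ) := by
      rw [← add_div, div_le_div_iff₀ (by positivity) (by positivity)]
      have c3 : 1 ≤ r ^ 3 := one_le_pow₀ hr1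
      have c4 : (256 * p ^ 11 + 1) * (r * n) ≤ 2 * r ^ 3 * (r * n) :=
        mul_le_mul_of_nonneg_right (by linarith) (by positivity)
      calc _ ≤ _ := c4
        _ = 2 * r ^ 4 * n := by ring
        _ = _ := by rw [hrn]; ring
    nlinarith [mul_le_mul_of_nonneg_right c2 (sq_nonneg σ)]
  have hp4 : (16 : ℝ) ≤ p ^ 4 := by
    have := pow_le_pow_left₀ (by norm_num) hp2 4
    linarith
  have b3 : ww P ≤ 33 * p ^ 4 * σ ^ 2 / r ^ 4 := by
    have c1 : vv P / (2 * (n - 1)) ≤ 32 * p ^ 4 * σ ^ 2 / n :=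
      div_le_div₀ (by positivity) a1 (by linarith) (by linarith)
    have c2 : 2 / (r * n) * σ ^ 2 ≤ p ^ 4 * σ ^ 2 / n := by
      rw [mul_div_right_comm]
      refine mul_le_mul_of_nonneg_right (div_le_div₀ (by positivity) (by linarith) (by linarith)
        (le_mul_of_one_le_left (by positivity) hr1)) (sq_nonneg _)
    rw [hrn]
    calc _ ≤ 32 * p ^ 4 * σ ^ 2 / n + p ^ 4 * σ ^ 2 / n := by linarith
      _ = _ := by ring
  have b4 : vv P ≤ σ ^ 2 * (2 + 4288 * (p ^ 5 / r)) := by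
    rcases le_total (vv P) (σ ^ 2) with hv | hv
    · exact hv.trans (le_mul_of_one_le_right (sq_nonneg _)
        (le_add_of_le_of_nonneg one_le_two (by positivity)))
    have c1 := R.F4 hp hw3
    have c2 := R.F2 hp (B := 82 * p ^ 4 * σ ^ 2 / r ^ 2) (by
      have d1 := R.absmom (s := r ^ 2) (by positivity) (by rw [← hrn]; ring)
      have d2 : vv P / (2 * r ^ 2) ≤ 32 * p ^ 4 * σ ^ 2 / (2 * r ^ 2) :=
        div_le_div_of_nonneg_right a1 (by positivity)
      have d3 : ww P ≤ r ^ 2 * ww P := le_mul_of_one_le_left w0 (one_le_pow₀ hr1)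
      have d4 := mul_le_mul_of_nonneg_left b3 (sq_nonneg r)
      have d5 : 82 * p ^ 4 * σ ^ 2 / r ^ 2 = 2 * (r ^ 2 * (33 * p ^ 4 * σ ^ 2 / r ^ 4)) +
          32 * p ^ 4 * σ ^ 2 / (2 * r ^ 2) := by
        field_simp
        ring
      linarith)
    have c3 : 33 * p ^ 4 * σ ^ 2 / r ^ 4 ≤ 33 * p ^ 6 * σ ^ 2 / r ^ 2 :=
      div_le_div₀ (by positivity) (mul_le_mul_of_nonneg_right (mul_le_mul_of_nonneg_left
        (pow_le_pow_right₀ (by linarith) (by norm_num)) (by norm_num)) (sq_nonneg _))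
        (by positivity) (pow_le_pow_right₀ hr1 (by norm_num))
    have c4 := R.key hp htσ (N2 := 76 * p ^ 3 * vv P / r) (N4 := 768 * p ^ 4 * vv P / r ^ 2)
      (by positivity) (by positivity) (by
        have d1 : 16 * p ^ 2 * (82 * p ^ 4 * σ ^ 2 / r ^ 2) + 2 * ww P ≤
            1444 * (p ^ 6 / r ^ 2) * vv P := by
          have d2 := mul_le_mul_of_nonneg_left hv (by positivity : (0 : ℝ) ≤ p ^ 6 / r ^ 2)
          have d3 : 0 ≤ p ^ 6 / r ^ 2 * vv P := by positivity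
          have d4 : 16 * p ^ 2 * (82 * p ^ 4 * σ ^ 2 / r ^ 2) = 1312 * (p ^ 6 / r ^ 2 * σ ^ 2) := by
            ring
          have d5 : 33 * p ^ 6 * σ ^ 2 / r ^ 2 = 33 * (p ^ 6 / r ^ 2 * σ ^ 2) := by ring
          linarith
        have d2 := mul_le_mul_of_nonneg_right d1 v0
        have d3 : (76 * p ^ 3 * vv P / r) ^ 2 = 4 * (1444 * (p ^ 6 / r ^ 2) * vv P * vv P) := by
          ring
        linarith) (by
        have d1 : ww P ≤ 33 * (p ^ 4 / r ^ 4) * vv P := by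
          have d2 := mul_le_mul_of_nonneg_left hv (by positivity : (0 : ℝ) ≤ p ^ 4 / r ^ 4)
          have d5 : 33 * p ^ 4 * σ ^ 2 / r ^ 4 = 33 * (p ^ 4 / r ^ 4 * σ ^ 2) := by ring
          linarith
        have d2 := mul_le_mul_of_nonneg_left d1 (by positivity : (0 : ℝ) ≤ p ^ 4 * vv P)
        have d3 : (768 * p ^ 4 * vv P / r ^ 2) ^ 2 =
            589824 * (p ^ 4 * vv P * (p ^ 4 / r ^ 4 * vv P)) := by ring
        have d4 : 0 ≤ p ^ 4 * vv P * (p ^ 4 / r ^ 4 * vv P) := by positivity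
        linarith)
    rw [← hσd] at c4
    refine le_of_sq_le_mul (by positivity) (c4.trans ?_)
    rw [mul_assoc (σ ^ 2)]
    refine mul_le_mul_of_nonneg_left ?_ (sq_nonneg σ)
    have d1 : (p : ℝ) ^ 3 / r ≤ 1 := by
      rw [div_le_one hr]
      have : (p : ℝ) ^ 3 ≤ p ^ 5 := pow_le_pow_right₀ (by linarith) (by norm_num)
      linarith
    have d2 := mul_le_mul_of_nonneg_left d1 (by positivity : (0 : ℝ) ≤ p ^ 5 / r * vv P)
    have d3 : 4 * p ^ 4 * (768 * p ^ 4 * vv P / r ^ 2) = 3072 * (p ^ 5 / r * vv P * (p ^ 3 / r)) := by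
      ring
    have d4 : 16 * p ^ 2 * (76 * p ^ 3 * vv P / r) = 1216 * (p ^ 5 / r * vv P) := by ring
    linarith
  set η : ℝ := p ^ 5 / r with hη
  have hη0 : 0 ≤ η := by positivity
  have b5 : ww P ≤ σ ^ 2 * ((1 + 2146 * η) / (n - 1)) := by
    have c1 : vv P / (2 * (n - 1)) ≤ σ ^ 2 * (2 + 4288 * η) / (2 * (n - 1)) :=
      div_le_div_of_nonneg_right b4 (by linarith)
    have c2 : 2 / (r * n) ≤ 2 * η / (n - 1) := by
      rw [hη, ← mul_div_assoc, div_div]
      exact div_le_div₀ (by positivity) (by linarith) (mul_pos hr (by linarith))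
        (mul_le_mul_of_nonneg_left (by linarith) hr.le)
    have c3 := mul_le_mul_of_nonneg_right c2 (sq_nonneg σ)
    have c4 : σ ^ 2 * ((1 + 2146 * η) / (n - 1)) =
        σ ^ 2 * (2 + 4288 * η) / (2 * (n - 1)) + 2 * η / (n - 1) * σ ^ 2 := by
      have : (n : ℝ) - 1 ≠ 0 := by linarith
      field_simp
      ring
    linarith
  have b6 : n - 1 ≤ d * (1 + 2146 * η) := by
    have c1 := hw.trans (mul_le_mul_of_nonneg_left b5 hd)
    rw [mul_left_comm, le_mul_iff_one_le_right (by positivity), ← mul_div_assoc,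
      one_le_div (by linarith)] at c1
    exact c1
  have b7 : η * n = p ^ 5 * r ^ 3 := by
    rw [hη, ← hrn]
    field_simp
  have b8 := mul_le_mul_of_nonneg_left hdn hη0
  have b9 : 1 ≤ p ^ 5 * r ^ 3 := one_le_mul_of_one_le_of_one_le (by linarith) (one_le_pow₀ hr1)
  linarith

section Matrices

variable {d : ℕ}

/-- real coordinates of a matrix -/
def co (A : Matrix (Fin d) (Fin d) ℂ) (a : Fin d × Fin d × Bool) : ℝ :=
  if a.2.2 then (A a.1 a.2.1).re else (A a.1 a.2.1).im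

theorem sum_co (A B : Matrix (Fin d) (Fin d) ℂ) : ∑ a, co A a * co B a = (Aᴴ * B).trace.re := by
  simp only [Fintype.sum_prod_type, co, Matrix.trace, Matrix.diag, Matrix.mul_apply,
    Complex.re_sum]
  rw [Finset.sum_comm]
  simp

theorem co_pos {A B : Matrix (Fin d) (Fin d) ℂ} (hA : A.IsHermitian ∧ A * A = A)
    (hB : B.IsHermitian ∧ B * B = B) : 0 ≤ ∑ a, co A a * co B a := by
  have h : (Aᴴ * B).trace = ((A * B)ᴴ * (A * B)).trace := by
    rw [Matrix.conjTranspose_mul, hA.1.eq, hB.1.eq, Matrix.mul_assoc, Matrix.trace_mul_comm B,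
      ← Matrix.mul_assoc A, hA.2, Matrix.mul_assoc, hB.2]
  rw [sum_co, h, ← sum_co]
  exact Finset.sum_nonneg fun _ _ ↦ mul_self_nonneg _

theorem one_le_trace {A : Matrix (Fin d) (Fin d) ℂ} (hA : A * A = A) (h0 : A ≠ 0) :
    1 ≤ A.trace.re := by
  have h1 : IsIdempotentElem (Matrix.toLin' A) := by
    rw [IsIdempotentElem, Module.End.mul_eq_comp, ← Matrix.toLin'_mul, hA]
  have h2 := (LinearMap.IsIdempotentElem.isProj_range _ h1).trace
  rw [Matrix.trace_toLin'_eq] at h2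
  have h3 : 0 < Module.finrank ℂ (LinearMap.range (Matrix.toLin' A)) := by
    rw [Module.finrank_pos_iff, Submodule.nontrivial_iff_ne_bot, Ne, LinearMap.range_eq_bot]
    exact fun h ↦ h0 (Matrix.toLin'.map_eq_zero_iff.1 h)
  rw [h2]
  exact_mod_cast h3

end Matrices

theorem adj_of_orth (hn0 : 0 < n) {x y : X n} (h : ∑ i, sg x i * sg y i = 0) :
    (Omega n).Adj x y := by
  rw [Omega, SimpleGraph.fromRel_adj]
  refine ⟨?_, Or.inl ?_⟩
  · rintro rfl
    simp only [sg_sq, sum_const, card_univ, Fintype.card_fin, nsmul_eq_mul, mul_one] at h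
    exact hn0.ne' (by exact_mod_cast h)
  · unfold sg at h
    exact_mod_cast h

theorem dim_of_coloring {d c : ℕ} (hn : 4 ∣ n) (hn0 : 0 < n) (hd : 0 < d)
    {Q : X n → Fin c → Matrix (Fin d) (Fin d) ℂ} (hQ : IsQColoring (Omega n) d c Q)
    (hp : ∃ k, p = 2 * 2 ^ k) (hc : 2 * n * c ≤ 2 ^ p) {r : ℝ} (hr : 0 < r) (hrn : r ^ 4 = n) :
    (n : ℝ) - d ≤ 2200 * p ^ 5 * r ^ 3 := by
  classical
  obtain ⟨h1, h2, h3⟩ := hQ
  have : Nonempty (Fin d) := ⟨⟨0, hd⟩⟩
  have h4 : ∀ x, ∃ k, Q x k ≠ 0 := fun x ↦ by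
    by_contra h
    push Not at h
    simpa [h] using h2 x
  choose κ hκ using h4
  have hc0 : 0 < c := Fin.pos (κ 1)
  obtain ⟨⟨k, b⟩, -, hb⟩ : ∃ q ∈ (univ : Finset (Fin c × Bool)), 1 / (2 * c : ℝ) ≤
      den (univ.filter fun x ↦ (κ x, decide (ch univ x = 1)) = q) := by
    refine Finset.exists_le_of_sum_le ⟨(κ 1, true), mem_univ _⟩ (le_of_eq ?_)
    simp only [den, ← Finset.expect_sum_comm, ind, mem_filter, mem_univ, true_and,
      Finset.sum_ite_eq, if_true, ex_const]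
    simp only [sum_const, card_univ, Fintype.card_prod, Fintype.card_fin, Fintype.card_bool,
      nsmul_eq_mul]
    push_cast
    field_simp
  set S : Finset (X n) := univ.filter fun x ↦ (κ x, decide (ch univ x = 1)) = (k, b) with hS
  have hS1 : ∀ x ∈ S, 1 ≤ (Q x k).trace.re := fun x hx ↦ by
    have : κ x = k := (Prod.ext_iff.1 (Finset.mem_filter.1 hx).2).1
    exact one_le_trace (h1 x k).2 (this ▸ hκ x)
  set w : X n → ℝ := fun x ↦ ind S x / √(Q x k).trace.re with hw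
  have hw0 : ∀ x, 0 ≤ w x := fun x ↦ div_nonneg (ind_nonneg S x) (Real.sqrt_nonneg _)
  set P : Fin d × Fin d × Bool → X n → ℝ := fun a x ↦ w x * co (Q x k) a with hP
  have hgk : ∀ x y, gk P x y = w x * w y * ∑ a, co (Q x k) a * co (Q y k) a := fun x y ↦ by
    rw [gk, Finset.mul_sum]
    exact Finset.sum_congr rfl fun a _ ↦ by ring
  have R : Rep S P := by
    refine ⟨fun x hx a ↦ by simp [hP, hw, ind, hx], fun x ↦ ?_, fun x y ↦ ?_⟩
    · have := hgk x x
      simp only [gk, ← sq] at this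
      rw [this]
      simp only [sq, sum_co, (h1 x k).1.eq, (h1 x k).2, hw, ind]
      split_ifs with hx
      · have := hS1 x hx
        rw [div_mul_div_comm, Real.mul_self_sqrt (by linarith), mul_one,
          div_mul_cancel₀ _ (by linarith)]
      · simp
    · rw [hgk]
      exact mul_nonneg (mul_nonneg (hw0 x) (hw0 y)) (co_pos (h1 x k) (h1 y k))
  refine R.dim hp (le_trans ?_ hb) hn hn0 (fun x y h ↦ ?_) (ε := if b then 1 else -1)
    (by split_ifs <;> norm_num) (fun x hx ↦ ?_) (Nat.cast_nonneg d) ?_ hr hrn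
  · rw [mul_one_div, div_le_div_iff₀ (by positivity) (by positivity)]
    have : (2 : ℝ) * n * c ≤ 2 ^ p := by exact_mod_cast hc
    linarith
  · rw [hgk, sum_co, (h1 x k).1.eq, h3 x y (adj_of_orth hn0 h) k]
    simp
  · have h5 : decide (ch univ x = 1) = b := (Prod.ext_iff.1 (Finset.mem_filter.1 hx).2).2
    rcases mul_self_eq_one_iff.1 (ch_sq univ x) with h | h
    · simp [← h5, h]
    · have : (-1 : ℝ) ≠ 1 := by norm_num
      simp [← h5, h, this]
  · have h5 := Finset.sum_mul_sq_le_sq_mul_sq univ (co (1 : Matrix (Fin d) (Fin d) ℂ))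
      fun a ↦ 𝔼 x, P a x
    have h6 : ∑ a, co (1 : Matrix (Fin d) (Fin d) ℂ) a ^ 2 = d := by simp [sq, sum_co]
    rw [h6] at h5
    refine le_trans (pow_le_pow_left₀ (den_nonneg S) ?_ 2) h5
    simp only [Finset.mul_expect, ← Finset.expect_sum_comm, hP, mul_left_comm _ (w _),
      ← Finset.mul_sum, sum_co, Matrix.conjTranspose_one, Matrix.one_mul]
    refine Finset.expect_le_expect fun x _ ↦ ?_
    simp only [hw, ind]
    split_ifs with hx
    · rw [one_div, inv_mul_eq_div, Real.div_sqrt]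
      exact Real.one_le_sqrt.2 (hS1 x hx)
    · simp

theorem exists_coloring {V : Type} [Fintype V] (G : SimpleGraph V) (d : ℕ) :
    ∃ P, IsQColoring G d (chiD G d) P := by
  classical
  refine Nat.sInf_mem (s := {c | ∃ P, IsQColoring G d c P}) ⟨Fintype.card V,
    fun v k ↦ if Fintype.equivFin V v = k then 1 else 0, fun v k ↦ ?_, fun v ↦ by simp,
    fun v w h k ↦ ?_⟩
  · dsimp only
    split_ifs <;> simp
  · dsimp only
    split_ifs with h1 h2
    · exact absurd ((Fintype.equivFin V).injective (h1.trans h2.symm)) h.ne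
    · simp
    · simp
    · simp

theorem lower (hn : 4 ∣ n) (hn0 : 0 < n) {d : ℕ} (hd : 0 < d) :
    (n : ℝ) - d ≤ 10 ^ 8 * (n : ℝ) ^ (3 / 4 : ℝ) * Real.log (n * chiD (Omega n) d) ^ 5 := by
  obtain ⟨Q, hQ⟩ := exists_coloring (Omega n) d
  set c := chiD (Omega n) d
  have hc0 : 0 < c := by
    rcases Nat.eq_zero_or_pos c with h | h
    · have : Nonempty (Fin d) := ⟨⟨0, hd⟩⟩
      have h2 := hQ.2.1 1
      have : IsEmpty (Fin c) := by rw [h]; infer_instance
      simp at h2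
    · exact h
  have hn4 : 4 ≤ n := Nat.le_of_dvd hn0 hn
  have h4 : 4 ≤ n * c := hn4.trans (Nat.le_mul_of_pos_right _ hc0)
  set m := Nat.clog 2 (2 * n * c) with hm
  have m1 : 2 * n * c ≤ 2 ^ m := Nat.le_pow_clog one_lt_two _
  have m2 : 2 ^ (m - 1) < 2 * n * c := Nat.pow_pred_clog_lt_self one_lt_two (by nlinarith)
  have m0 : 0 < m := Nat.clog_pos one_lt_two (by nlinarith)
  have k1 : 2 ^ Nat.log 2 m ≤ m := Nat.pow_log_le_self 2 m0.ne'
  have k2 : m < 2 * 2 ^ Nat.log 2 m := by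
    rw [← pow_succ']
    exact Nat.lt_pow_succ_log_self one_lt_two m
  have hn' : (0 : ℝ) < n := by positivity
  have h := dim_of_coloring hn hn0 hd hQ ⟨Nat.log 2 m, rfl⟩
    (m1.trans (Nat.pow_le_pow_right two_pos k2.le)) (r := (n : ℝ) ^ (1 / 4 : ℝ)) (by positivity)
    (by rw [← Real.rpow_natCast, ← Real.rpow_mul hn'.le]; norm_num)
  rw [← Real.rpow_natCast _ 3, ← Real.rpow_mul hn'.le] at h
  norm_num only at h
  have l2 := Real.log_two_gt_d9
  have l1 : 2 * Real.log 2 ≤ Real.log (n * c) := by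
    have := Real.log_le_log (x := 2 ^ 2) (y := n * c) (by norm_num) (by exact_mod_cast h4)
    rwa [Real.log_pow] at this
  have l3 : (m - 1 : ℝ) * Real.log 2 ≤ Real.log 2 + Real.log (n * c) := by
    have := Real.log_le_log (x := 2 ^ (m - 1)) (y := 2 * (n * c)) (by positivity)
      (by rw [← mul_assoc]; exact_mod_cast m2.le)
    rwa [Real.log_pow, Real.log_mul (by norm_num) (by positivity), Nat.cast_pred m0] at this
  have l4 : ((2 * 2 ^ Nat.log 2 m : ℕ) : ℝ) ≤ 8 * Real.log (n * c) := by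
    have : ((2 * 2 ^ Nat.log 2 m : ℕ) : ℝ) ≤ 2 * m := by exact_mod_cast Nat.mul_le_mul_left 2 k1
    nlinarith
  have l5 := pow_le_pow_left₀ (by positivity) l4 5
  have l6 : 0 ≤ Real.log (n * c) ^ 5 := pow_nonneg (by linarith) 5
  have l7 : 0 ≤ (n : ℝ) ^ (3 / 4 : ℝ) := by positivity
  nlinarith [mul_le_mul_of_nonneg_right l5 l7, mul_nonneg l6 l7]

end Pool.Agent.Lib.MP_5d53d3_co
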