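import Pool.Agent.Lib.MP_5d53d3_co.Level

/-! The sharp bound for the second level. -/

open Finset
open scoped symmDiff BigOperators

namespace Pool.Agent.Lib.MP_5d53d3_co

variable {n : ℕ} {ι : Type} [Fintype ι]

noncomputable def al (P : ι → X n → ℝ) (a : ι) (i k : Fin n) : ℝ :=
  if i = k then 0 else 𝔼 x, sg x i * sg x k * P a x

noncomputable def ww (P : ι → X n → ℝ) : ℝ := ∑ a, (𝔼 x, P a x) ^ 2

noncomputable def vv (P : ι → X n → ℝ) : ℝ := ∑ a, ∑ i, ∑ k, al P a i k ^ 2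

noncomputable def gm (P : ι → X n → ℝ) (i k j l : Fin n) : ℝ := ∑ a, al P a i k * al P a j l

noncomputable def GG (P : ι → X n → ℝ) (k l : Fin n) : ℝ :=
  if k = l then 0 else ∑ i, gm P i k i l

variable {S : Finset (X n)} {P : ι → X n → ℝ} {p : ℕ}

theorem ww_nonneg (P : ι → X n → ℝ) : 0 ≤ ww P := by unfold ww; positivity

theorem vv_nonneg (P : ι → X n → ℝ) : 0 ≤ vv P := by unfold vv; positivity

omit [Fintype ι] in
theorem al_symm (P : ι → X n → ℝ) (a : ι) (i k : Fin n) : al P a i k = al P a k i := by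
  simp only [al, eq_comm (a := i), mul_comm (sg _ i)]

omit [Fintype ι] in
theorem al_eq (P : ι → X n → ℝ) (a : ι) (i k : Fin n) : al P a i k =
    (𝔼 x, sg x i * sg x k * P a x) - if i = k then 𝔼 x, P a x else 0 := by
  unfold al
  split_ifs with h
  · simp [h, sg_sq]
  · simp

theorem ww_eq (P : ι → X n → ℝ) : 𝔼 x, 𝔼 y, gk P x y = ww P := by
  simpa [ww] using (gram_eq (κ := Unit) (fun _ _ ↦ 1) (fun _ ↦ 1) P).symm

theorem m2_eq (P : ι → X n → ℝ) :
    𝔼 x, 𝔼 y, (∑ i, sg x i * sg y i) ^ 2 * gk P x y = vv P + n * ww P := by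
  have h := gram_eq (κ := Fin n × Fin n) (fun t x ↦ sg x t.1 * sg x t.2) (fun _ ↦ 1) P
  have e : ∀ x y : X n, ∑ t : Fin n × Fin n, sg x t.1 * sg x t.2 * (sg y t.1 * sg y t.2) =
      (∑ i, sg x i * sg y i) ^ 2 := fun x y ↦ by
    rw [sq, Finset.sum_mul_sum, Fintype.sum_prod_type]
    exact Finset.sum_congr rfl fun i _ ↦ Finset.sum_congr rfl fun k _ ↦ by ring
  simp only [e, one_mul] at h
  rw [← h, vv, ww, Finset.mul_sum, ← Finset.sum_add_distrib]
  refine Finset.sum_congr rfl fun a _ ↦ ?_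
  have : ∀ i k, (𝔼 x, sg x i * sg x k * P a x) ^ 2 =
      al P a i k ^ 2 + if i = k then (𝔼 x, P a x) ^ 2 else 0 := fun i k ↦ by
    unfold al
    split_ifs with h
    · simp [h, sg_sq]
    · simp
  simp [Fintype.sum_prod_type, this, Finset.sum_add_distrib]

theorem Rep.absmom (R : Rep S P) {s : ℝ} (hs : 0 < s) (hn : s ^ 2 = n) :
    𝔼 x, 𝔼 y, |∑ i, sg x i * sg y i| * gk P x y ≤ s * ww P + vv P / (2 * s) := by
  have h : ∀ x y : X n, |∑ i, sg x i * sg y i| * gk P x y ≤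
      s / 2 * gk P x y + 1 / (2 * s) * ((∑ i, sg x i * sg y i) ^ 2 * gk P x y) := fun x y ↦ by
    rw [← mul_assoc, ← add_mul]
    refine mul_le_mul_of_nonneg_right ?_ (R.pos x y)
    rw [← sq_abs]
    set t := |∑ i, sg x i * sg y i|
    have : s / 2 + 1 / (2 * s) * t ^ 2 - t = (t - s) ^ 2 / (2 * s) := by
      field_simp
      ring
    have h2 : 0 ≤ (t - s) ^ 2 / (2 * s) := by positivity
    linarith
  refine (Finset.expect_le_expect fun x _ ↦ Finset.expect_le_expect fun y _ ↦ h x y).trans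
    (le_of_eq ?_)
  simp only [Finset.expect_add_distrib, ← Finset.mul_expect, ww_eq, m2_eq, ← hn]
  field_simp
  ring

theorem lin (c : Fin n → ℝ) : (fun x ↦ ∑ l, c l * sg x l) ∈ V univ 1 ∧
    𝔼 x, (∑ l, c l * sg x l) ^ 2 ≤ ∑ l, c l ^ 2 := by
  have e : ∀ x l, sg x l = ch {l} x := fun (x : X n) l ↦ by simp [ch]
  simp only [e]
  refine ⟨sum_mem univ (fun l ↦ {l}) c fun _ _ ↦ by simp, ?_⟩
  simpa using ex_sq_le univ (fun l ↦ {l}) c (m := 1) fun U ↦ Finset.card_le_one.2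
    fun a ha b hb ↦ Finset.singleton_injective
      ((Finset.mem_filter.1 ha).2.trans (Finset.mem_filter.1 hb).2.symm)

theorem fiber2 (T : Finset (Fin n × Fin n)) (U : Finset (Fin n)) :
    (T.filter fun t ↦ ({t.1, t.2} : Finset (Fin n)) = U).card ≤ 4 := by
  rcases (T.filter fun t ↦ ({t.1, t.2} : Finset (Fin n)) = U).eq_empty_or_nonempty with
    h | ⟨t, ht⟩
  · simp [h]
  have h1 : U.card ≤ 2 := (Finset.mem_filter.1 ht).2 ▸ Finset.card_le_two
  refine (Finset.card_le_card (t := U ×ˢ U) fun u hu ↦ ?_).trans ?_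
  · rw [← (Finset.mem_filter.1 hu).2]
    simp
  · rw [Finset.card_product]
    exact Nat.mul_le_mul h1 h1

theorem quad (c : Fin n → Fin n → ℝ) (hc : ∀ j, c j j = 0) :
    (fun x ↦ ∑ j, ∑ l, c j l * (sg x j * sg x l)) ∈ V univ 2 ∧
    𝔼 x, (∑ j, ∑ l, c j l * (sg x j * sg x l)) ^ 2 ≤ 4 * ∑ j, ∑ l, c j l ^ 2 := by
  have e : ∀ x : X n, ∑ j, ∑ l, c j l * (sg x j * sg x l) =
      ∑ t : Fin n × Fin n, c t.1 t.2 * ch {t.1, t.2} x := fun x ↦ by
    rw [Fintype.sum_prod_type]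
    refine Finset.sum_congr rfl fun j _ ↦ Finset.sum_congr rfl fun l _ ↦ ?_
    by_cases h : j = l
    · simp [h, hc]
    · simp [ch, Finset.prod_pair h]
  simp only [e]
  refine ⟨sum_mem univ _ (fun t : Fin n × Fin n ↦ c t.1 t.2) fun _ _ ↦ Finset.card_le_two, ?_⟩
  simpa [Fintype.sum_prod_type] using ex_sq_le univ _ (fun t : Fin n × Fin n ↦ c t.1 t.2)
    (fiber2 univ)

theorem quart (c : Fin n → Fin n → Fin n → Fin n → ℝ) :
    (fun x ↦ ∑ i, ∑ k, ∑ j, ∑ l, c i k j l * ch {i, k, j, l} x) ∈ V univ 4 ∧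
    𝔼 x, (∑ i, ∑ k, ∑ j, ∑ l, c i k j l * ch {i, k, j, l} x) ^ 2 ≤
      256 * ∑ i, ∑ k, ∑ j, ∑ l, c i k j l ^ 2 := by
  have e : ∀ x : X n, ∑ i, ∑ k, ∑ j, ∑ l, c i k j l * ch {i, k, j, l} x =
      ∑ t : Fin n × Fin n × Fin n × Fin n, c t.1 t.2.1 t.2.2.1 t.2.2.2 *
        ch {t.1, t.2.1, t.2.2.1, t.2.2.2} x := fun x ↦ by simp only [Fintype.sum_prod_type]
  simp only [e]
  refine ⟨sum_mem univ _ (fun t : Fin n × Fin n × Fin n × Fin n ↦ c t.1 t.2.1 t.2.2.1 t.2.2.2)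
    fun _ _ ↦ Finset.card_le_four, ?_⟩
  have hf : ∀ U, (univ.filter fun t : Fin n × Fin n × Fin n × Fin n ↦
      ({t.1, t.2.1, t.2.2.1, t.2.2.2} : Finset (Fin n)) = U).card ≤ 256 := by
    intro U
    rcases (univ.filter fun t : Fin n × Fin n × Fin n × Fin n ↦
      ({t.1, t.2.1, t.2.2.1, t.2.2.2} : Finset (Fin n)) = U).eq_empty_or_nonempty with h | ⟨t, ht⟩
    · simp [h]
    have h1 : U.card ≤ 4 := (Finset.mem_filter.1 ht).2 ▸ Finset.card_le_four
    refine (Finset.card_le_card (t := U ×ˢ U ×ˢ U ×ˢ U) fun u hu ↦ ?_).trans ?_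
    · rw [← (Finset.mem_filter.1 hu).2]
      simp
    · simp only [Finset.card_product]
      exact Nat.mul_le_mul h1 (Nat.mul_le_mul h1 (Nat.mul_le_mul h1 h1))
  simpa [Fintype.sum_prod_type] using ex_sq_le univ _
    (fun t : Fin n × Fin n × Fin n × Fin n ↦ c t.1 t.2.1 t.2.2.1 t.2.2.2) hf

theorem cs3 (f g : ι → Fin n → Fin n → ℝ) : (∑ a, ∑ i, ∑ k, f a i k * g a i k) ^ 2 ≤
    (∑ a, ∑ i, ∑ k, f a i k ^ 2) * ∑ a, ∑ i, ∑ k, g a i k ^ 2 := by
  simpa only [Fintype.sum_prod_type] using Finset.sum_mul_sq_le_sq_mul_sq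
    (univ : Finset (ι × Fin n × Fin n)) (fun t ↦ f t.1 t.2.1 t.2.2) fun t ↦ g t.1 t.2.1 t.2.2

theorem sum3 (f : ι → Fin n → Fin n → ℝ) :
    ∑ a, ∑ i, ∑ k, f a i k = ∑ i, ∑ k, ∑ a, f a i k := by
  rw [Finset.sum_comm]
  exact Finset.sum_congr rfl fun i _ ↦ Finset.sum_comm

theorem gm_diag (P : ι → X n → ℝ) (i k j : Fin n) : gm P i k j j = 0 := by simp [gm, al]

theorem Rep.F4 (R : Rep S P) (hp : ∃ k, p = 2 * 2 ^ k) (hw : (1 / 2 ^ p) ^ 2 ≤ ww P) :
    ∑ i, ∑ k, ∑ j, ∑ l, gm P i k j l ^ 2 ≤ 64 * p ^ 4 * ww P * vv P := by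
  have h0 := ww_nonneg P
  have h0' := vv_nonneg P
  refine le_of_sq_le_mul (by positivity) ?_
  set q : Fin n → Fin n → X n → ℝ := fun i k x ↦ ∑ j, ∑ l, gm P i k j l * (sg x j * sg x l)
    with hq
  have e1 : ∀ a i k, 𝔼 x, q i k x * P a x = ∑ j, ∑ l, gm P i k j l * al P a j l := by
    intro a i k
    simp only [hq, Finset.sum_mul, Finset.expect_sum_comm]
    refine Finset.sum_congr rfl fun j _ ↦ Finset.sum_congr rfl fun l _ ↦ ?_
    by_cases h : j = l
    · simp [h, gm_diag]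
    · simp [al, h, Finset.mul_expect, mul_assoc]
  have e2 : ∑ i, ∑ k, ∑ j, ∑ l, gm P i k j l ^ 2 =
      ∑ a, ∑ i, ∑ k, al P a i k * 𝔼 x, q i k x * P a x := by
    rw [sum3 fun a i k ↦ al P a i k * 𝔼 x, q i k x * P a x]
    refine Finset.sum_congr rfl fun i _ ↦ Finset.sum_congr rfl fun k _ ↦ ?_
    simp only [e1, Finset.mul_sum]
    rw [sum3 fun a j l ↦ al P a i k * (gm P i k j l * al P a j l)]
    refine Finset.sum_congr rfl fun j _ ↦ Finset.sum_congr rfl fun l _ ↦ ?_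
    rw [sq]
    nth_rewrite 2 [gm]
    rw [Finset.mul_sum]
    exact Finset.sum_congr rfl fun a _ ↦ by ring
  have e3 : ∀ i k, ∑ a, (𝔼 x, q i k x * P a x) ^ 2 ≤
      64 * p ^ 4 * ww P * ∑ j, ∑ l, gm P i k j l ^ 2 := by
    intro i k
    obtain ⟨h1, h2⟩ := quad (gm P i k) (gm_diag P i k)
    have h3 := R.trunc hp (κ := Unit) (fun _ _ ↦ 1) (fun _ _ ↦ by simp) h1 (by positivity) h2
    simp only [mul_one, univ_unique, sum_singleton, abs_one, one_mul, ww_eq, Fintype.card_unique,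
      Nat.cast_one] at h3
    refine h3.trans ((mul_le_mul_of_nonneg_left (add_le_add_right hw _) (by positivity)).trans
      (le_of_eq (by ring)))
  nth_rewrite 1 [e2]
  refine (cs3 _ _).trans ?_
  rw [sum3 fun a i k ↦ (𝔼 x, q i k x * P a x) ^ 2]
  refine (mul_le_mul_of_nonneg_left (Finset.sum_le_sum fun i _ ↦ Finset.sum_le_sum fun k _ ↦
    e3 i k) h0').trans (le_of_eq ?_)
  simp only [← Finset.mul_sum]
  rw [vv]
  ring

theorem Rep.F2 (R : Rep S P) (hp : ∃ k, p = 2 * 2 ^ k) {B : ℝ}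
    (hB : (𝔼 x, 𝔼 y, |∑ i, sg x i * sg y i| * gk P x y) + n * (1 / 2 ^ p) ^ 2 ≤ B) :
    ∑ k, ∑ l, GG P k l ^ 2 ≤ (16 * p ^ 2 * B + 2 * ww P) * vv P := by
  have h0 := ww_nonneg P
  have h0' := vv_nonneg P
  have hB0 : 0 ≤ B := le_trans (add_nonneg (Finset.expect_nonneg fun x _ ↦ Finset.expect_nonneg
    fun y _ ↦ mul_nonneg (abs_nonneg _) (R.pos x y)) (by positivity)) hB
  refine le_of_sq_le_mul (by positivity) ?_
  set q : Fin n → X n → ℝ := fun k x ↦ ∑ l, GG P k l * sg x l with hq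
  have e1 : ∀ a i k, ∑ l, GG P k l * al P a i l =
      (𝔼 x, q k x * sg x i * P a x) - GG P k i * 𝔼 x, P a x := by
    intro a i k
    simp only [hq, Finset.sum_mul, Finset.expect_sum_comm, al_eq, mul_sub, Finset.sum_sub_distrib,
      mul_ite, mul_zero, Finset.sum_ite_eq, mem_univ, if_true, Finset.mul_expect]
    congr 1
    exact Finset.sum_congr rfl fun l _ ↦ Finset.expect_congr rfl fun x _ ↦ by ring
  have e2 : ∑ k, ∑ l, GG P k l ^ 2 = ∑ a, ∑ i, ∑ k, al P a i k * ∑ l, GG P k l * al P a i l := by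
    rw [sum3, Finset.sum_comm (f := fun i k ↦ ∑ a, al P a i k * ∑ l, GG P k l * al P a i l)]
    refine Finset.sum_congr rfl fun k _ ↦ ?_
    simp only [Finset.mul_sum]
    rw [Finset.sum_comm (f := fun i a ↦ ∑ l, al P a i k * (GG P k l * al P a i l)), sum3,
      Finset.sum_comm]
    refine Finset.sum_congr rfl fun l _ ↦ ?_
    by_cases h : k = l
    · simp [GG, h]
    · rw [sq]
      nth_rewrite 2 [GG]
      rw [if_neg h, Finset.mul_sum]
      refine Finset.sum_congr rfl fun i _ ↦ ?_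
      rw [gm, Finset.mul_sum]
      exact Finset.sum_congr rfl fun a _ ↦ by ring
  have e3 : ∀ k, ∑ a, ∑ i, (∑ l, GG P k l * al P a i l) ^ 2 ≤
      (16 * p ^ 2 * B + 2 * ww P) * ∑ l, GG P k l ^ 2 := by
    intro k
    obtain ⟨h1, h2⟩ := lin (GG P k)
    have h3 := R.trunc hp (fun i x ↦ sg x i) (fun i x ↦ (abs_sg x i).le) h1 (by positivity) h2
    rw [Fintype.card_fin] at h3
    have h4 := h3.trans (mul_le_mul_of_nonneg_left hB (by positivity))
    have h5 : ∑ a, ∑ i, (∑ l, GG P k l * al P a i l) ^ 2 ≤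
        2 * ∑ a, ∑ i, (𝔼 x, q k x * sg x i * P a x) ^ 2 + 2 * ww P * ∑ l, GG P k l ^ 2 := by
      rw [ww, mul_assoc, Finset.sum_mul_sum]
      simp only [Finset.mul_sum, ← Finset.sum_add_distrib]
      refine Finset.sum_le_sum fun a _ ↦ Finset.sum_le_sum fun i _ ↦ ?_
      rw [e1]
      nlinarith [sq_nonneg ((𝔼 x, q k x * sg x i * P a x) + GG P k i * 𝔼 x, P a x)]
    simp only [hq] at h5
    rw [mul_one] at h4
    linarith
  nth_rewrite 1 [e2]
  refine (cs3 _ _).trans ?_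
  rw [sum3 fun a i k ↦ (∑ l, GG P k l * al P a i l) ^ 2,
    Finset.sum_comm (f := fun i k ↦ ∑ a, (∑ l, GG P k l * al P a i l) ^ 2)]
  refine (mul_le_mul_of_nonneg_left (Finset.sum_le_sum fun k _ ↦
    Finset.sum_comm.le.trans (e3 k)) h0').trans (le_of_eq ?_)
  simp only [← Finset.mul_sum]
  rw [vv]
  ring

/-- pairwise distinct indices -/
def Dis (i k j l : Fin n) : Prop := i ≠ k ∧ j ≠ l ∧ i ≠ j ∧ i ≠ l ∧ k ≠ j ∧ k ≠ l

instance (i k j l : Fin n) : Decidable (Dis i k j l) := by unfold Dis; infer_instance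

theorem term_eq (P : ι → X n → ℝ) (x : X n) (i k j l : Fin n) :
    gm P i k j l * (sg x i * sg x k * (sg x j * sg x l)) =
      (if Dis i k j l then gm P i k j l else 0) * ch {i, k, j, l} x +
      (if i = j then gm P i k i l * (sg x k * sg x l) else 0) +
      (if i = l then gm P i k i j * (sg x k * sg x j) else 0) +
      (if k = j then gm P k i k l * (sg x i * sg x l) else 0) +
      (if k = l then gm P k i k j * (sg x i * sg x j) else 0) -
      (if i = j then if k = l then gm P i k i k else 0 else 0) -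
      (if k = j then if i = l then gm P i k i k else 0 else 0) := by
  have s1 : ∀ i k j l, gm P i k j l = gm P k i j l := fun i k j l ↦ by
    simp only [gm, al_symm P _ i k]
  have s2 : ∀ i k j l, gm P i k j l = gm P i k l j := fun i k j l ↦ by
    simp only [gm, al_symm P _ j l]
  have z1 : ∀ i j l, gm P i i j l = 0 := fun i j l ↦ by simp [gm, al]
  have z2 := gm_diag P
  have a1 := sg_sq x i
  have a2 := sg_sq x k
  by_cases h1 : i = k
  · subst h1
    simp [z1, Dis]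
  by_cases h2 : j = l
  · subst h2
    by_cases h3 : i = j <;> by_cases h4 : k = j <;> simp_all [Dis]
  by_cases h3 : i = j
  · subst h3
    by_cases h4 : k = l
    · subst h4
      simp [Dis, h1, Ne.symm h1, s1 k i k i, s2 i k k i]
      linear_combination (gm P i k i k * (sg x k * sg x k)) * a1 - gm P i k i k * a1
    · simp [Dis, h2, h4, Ne.symm h1]
      exact Or.inl (by linear_combination (sg x k * sg x l) * a1)
  by_cases h4 : i = l
  · subst h4
    by_cases h5 : k = j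
    · subst h5
      simp [Dis, h1, Ne.symm h1, s1 k i k i, s2 i k k i]
      linear_combination (gm P i k i k * (sg x k * sg x k)) * a1 - gm P i k i k * a1
    · simp [Dis, h3, h5, Ne.symm h1, s2 i k j i]
      exact Or.inl (by linear_combination (sg x k * sg x j) * a1)
  by_cases h5 : k = j
  · subst h5
    simp [Dis, h1, h2, h4, s1 k i k l]
    exact Or.inl (by linear_combination (sg x i * sg x l) * a2)
  by_cases h6 : k = l
  · subst h6
    simp [Dis, h1, h3, h5, s1 k i k j, s2 i k j k]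
    exact Or.inl (by linear_combination (sg x i * sg x j) * a2)
  · simp [Dis, h1, h2, h3, h4, h5, h6, ch, mul_assoc]

theorem normsq_eq (P : ι → X n → ℝ) (x : X n) :
    ∑ a, (∑ i, ∑ k, al P a i k * (sg x i * sg x k)) ^ 2 =
      (∑ i, ∑ k, ∑ j, ∑ l, (if Dis i k j l then gm P i k j l else 0) * ch {i, k, j, l} x) +
        4 * (∑ k, ∑ l, GG P k l * (sg x k * sg x l)) + 2 * vv P := by
  have e1 : ∑ a, (∑ i, ∑ k, al P a i k * (sg x i * sg x k)) ^ 2 =
      ∑ i, ∑ k, ∑ j, ∑ l, gm P i k j l * (sg x i * sg x k * (sg x j * sg x l)) := by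
    simp only [sq, Finset.sum_mul, Finset.mul_sum, gm]
    rw [sum3]
    refine Finset.sum_congr rfl fun i _ ↦ Finset.sum_congr rfl fun k _ ↦ ?_
    rw [sum3]
    exact Finset.sum_congr rfl fun j _ ↦ Finset.sum_congr rfl fun l _ ↦
      Finset.sum_congr rfl fun a _ ↦ by ring
  have e2 : ∑ i, ∑ k, gm P i k i k = vv P := by
    rw [vv, sum3]
    simp [gm, sq]
  have e3 : ∑ i, ∑ k, ∑ l, gm P i k i l * (sg x k * sg x l) =
      (∑ k, ∑ l, GG P k l * (sg x k * sg x l)) + vv P := by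
    rw [← e2, Finset.sum_comm, Finset.sum_comm (f := fun i k ↦ gm P i k i k),
      ← Finset.sum_add_distrib]
    refine Finset.sum_congr rfl fun k _ ↦ ?_
    rw [Finset.sum_comm]
    have : ∀ l, ∑ i, gm P i k i l * (sg x k * sg x l) = GG P k l * (sg x k * sg x l) +
        if k = l then ∑ i, gm P i k i k else 0 := fun l ↦ by
      unfold GG
      split_ifs with h
      · simp [← h, sg_sq]
      · simp [Finset.sum_mul]
    simp [this, Finset.sum_add_distrib]
  have e4 : ∑ i, ∑ k, ∑ l, gm P k i k l * (sg x i * sg x l) =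
      (∑ k, ∑ l, GG P k l * (sg x k * sg x l)) + vv P := by rw [← e3, Finset.sum_comm]
  simp only [e1, term_eq, Finset.sum_add_distrib, Finset.sum_sub_distrib, Finset.sum_ite_irrel,
    Finset.sum_const_zero, Finset.sum_ite_eq, mem_univ, if_true, e2, e3, e4]
  ring

/-- the key inequality -/
theorem Rep.key (R : Rep S P) (hp : ∃ k, p = 2 * 2 ^ k) (hσ : 1 / 2 ^ p ≤ den S) {N2 N4 : ℝ}
    (h2 : 0 ≤ N2) (h4 : 0 ≤ N4) (hN2 : 4 * ∑ k, ∑ l, GG P k l ^ 2 ≤ N2 ^ 2)
    (hN4 : 256 * ∑ i, ∑ k, ∑ j, ∑ l, gm P i k j l ^ 2 ≤ N4 ^ 2) :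
    vv P ^ 2 ≤ den S ^ 2 * (2 * vv P + 4 * p ^ 4 * N4 + 16 * p ^ 2 * N2) := by
  have h := R.bessel fun a x ↦ ∑ i, ∑ k, al P a i k * (sg x i * sg x k)
  have e1 : 𝔼 x, ∑ a, P a x * ∑ i, ∑ k, al P a i k * (sg x i * sg x k) = vv P := by
    simp only [vv, Finset.mul_sum, Finset.expect_sum_comm]
    refine Finset.sum_congr rfl fun a _ ↦ Finset.sum_congr rfl fun i _ ↦
      Finset.sum_congr rfl fun k _ ↦ ?_
    by_cases h : i = k
    · simp [al, h]
    · rw [sq]
      nth_rewrite 3 [al]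
      rw [if_neg h, Finset.mul_expect]
      exact Finset.expect_congr rfl fun x _ ↦ by ring
  simp only [e1, normsq_eq] at h
  obtain ⟨a1, a2⟩ := quart fun i k j l ↦ if Dis i k j l then gm P i k j l else 0
  obtain ⟨b1, b2⟩ := quad (GG P) fun j ↦ by simp [GG]
  have a3 := on_set hp hσ a1 h4 (a2.trans (le_trans (mul_le_mul_of_nonneg_left
    (Finset.sum_le_sum fun i _ ↦ Finset.sum_le_sum fun k _ ↦ Finset.sum_le_sum fun j _ ↦
      Finset.sum_le_sum fun l _ ↦ by split_ifs <;> simp [sq_nonneg]) (by norm_num)) hN4))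
    one_le_two
  have b3 := on_set hp hσ b1 h2 (b2.trans hN2) one_le_two
  simp only [pow_one] at a3 b3
  refine h.trans ?_
  rw [sq (den S), mul_assoc]
  refine mul_le_mul_of_nonneg_left ?_ (den_nonneg S)
  have c1 : ∀ x (u v : ℝ), ind S x * (u + 4 * v + 2 * vv P) ≤
      ind S x * |u| + 4 * (ind S x * |v|) + 2 * vv P * ind S x := fun x u v ↦ by
    have := mul_le_mul_of_nonneg_left (le_abs_self u) (ind_nonneg S x)
    have := mul_le_mul_of_nonneg_left (le_abs_self v) (ind_nonneg S x)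
    linarith
  refine (Finset.expect_le_expect fun x _ ↦ c1 x _ _).trans ?_
  simp only [Finset.expect_add_distrib, ← Finset.mul_expect]
  unfold den at *
  linarith

end Pool.Agent.Lib.MP_5d53d3_co
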