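import Pool.Agent.Lib.MP_5d53d3_co.Second

/-! The spectral inequality. -/

open Finset
open scoped symmDiff BigOperators

namespace Pool.Agent.Lib.MP_5d53d3_co

variable {n : ℕ} {ι : Type} [Fintype ι]

noncomputable def WW (P : ι → X n → ℝ) (U : Finset (Fin n)) : ℝ := ∑ a, fc (P a) U ^ 2

noncomputable def lev (P : ι → X n → ℝ) (j : ℕ) : ℝ := ∑ U ∈ powersetCard j univ, WW P U

variable {S : Finset (X n)} {P : ι → X n → ℝ} {p : ℕ}

theorem lev_nonneg (P : ι → X n → ℝ) (j : ℕ) : 0 ≤ lev P j := by unfold lev WW; positivity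

theorem sum_levels (F : Finset (Fin n) → ℝ) :
    ∑ U, F U = ∑ j ∈ range (n + 1), ∑ U ∈ powersetCard j univ, F U := by
  rw [← Finset.powerset_univ, Finset.sum_powerset]
  simp

theorem spectral (hn : 4 ∣ n) (h : ∀ x y, ∑ i, sg x i * sg y i = 0 → gk P x y = 0) :
    ∑ j ∈ range (n + 1), lam n j * lev P j = 0 := by
  have h1 : ∑ U, fc hz U * WW P U = 0 := by
    have e : ∀ U, WW P U = 𝔼 x, 𝔼 y, ch U (x * y) * gk P x y := fun U ↦ by
      simpa [WW, fc, ch_pt] using gram_eq (κ := Unit) (fun _ _ ↦ 1) (ch U) P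
    simp only [e, Finset.mul_expect, ← Finset.expect_sum_comm, ← mul_assoc, ← Finset.sum_mul,
      ← inversion]
    refine Finset.expect_eq_zero fun x _ ↦ Finset.expect_eq_zero fun y _ ↦ ?_
    unfold hz
    split_ifs with h0
    · rw [h x y (by simpa [sg_mul] using h0.1), mul_zero]
    · simp
  rw [sum_levels] at h1
  refine mul_left_cancel₀ (fc_hz_pos hn).ne' ?_
  rw [mul_zero, ← h1, Finset.mul_sum]
  refine Finset.sum_congr rfl fun j _ ↦ ?_
  rw [lev, Finset.mul_sum, Finset.mul_sum]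
  exact Finset.sum_congr rfl fun U hU ↦ by
    rw [fc_hz_eq j U (Finset.mem_powersetCard.1 hU).2, mul_assoc]

theorem lam_symm (hn : 4 ∣ n) {j : ℕ} (hj : j ≤ n) : lam n (n - j) = lam n j := by
  obtain ⟨U, -, hU⟩ := Finset.exists_subset_card_eq (s := (univ : Finset (Fin n))) (n := j)
    (by simpa using hj)
  refine mul_left_cancel₀ (fc_hz_pos hn).ne' ?_
  rw [← fc_hz_eq j U hU, ← fc_hz_eq (n - j) Uᶜ (by simp [Finset.card_compl, hU]), fc_hz_compl]

theorem Rep.lev_symm (R : Rep S P) {ε : ℝ} (hε : ε ^ 2 = 1) (h : ∀ x ∈ S, ch univ x = ε) {j : ℕ}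
    (hj : j ≤ n) : lev P (n - j) = lev P j := by
  have h1 : ∀ U, WW P Uᶜ = WW P U := fun U ↦ Finset.sum_congr rfl fun a _ ↦ by
    have : fc (P a) Uᶜ = ε * fc (P a) U := by
      rw [fc, fc, Finset.mul_expect]
      refine Finset.expect_congr rfl fun x _ ↦ ?_
      by_cases hx : x ∈ S
      · rw [ch_compl, h x hx]
        ring
      · simp [R.off x hx]
    rw [this, mul_pow, hε, one_mul]
  refine Finset.sum_bij' (fun U _ ↦ Uᶜ) (fun U _ ↦ Uᶜ) (fun U hU ↦ ?_) (fun U hU ↦ ?_)
    (fun _ _ ↦ compl_compl _) (fun _ _ ↦ compl_compl _) fun U _ ↦ (h1 U).symm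
  · simp only [mem_powersetCard, subset_univ, true_and, card_compl, Fintype.card_fin] at hU ⊢
    omega
  · simp only [mem_powersetCard, subset_univ, true_and, card_compl, Fintype.card_fin] at hU ⊢
    omega

theorem lev_zero (P : ι → X n → ℝ) : lev P 0 = ww P := by simp [lev, WW, ww, fc, ch_empty]

theorem vv_eq (P : ι → X n → ℝ) :
    vv P = ∑ a, ∑ t ∈ (univ : Finset (Fin n)).offDiag, fc (P a) {t.1, t.2} ^ 2 := by
  refine Finset.sum_congr rfl fun a _ ↦ ?_
  rw [← Fintype.sum_prod_type', ← Finset.sum_subset (Finset.subset_univ univ.offDiag)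
    fun t _ ht ↦ by simp_all [al]]
  refine Finset.sum_congr rfl fun t ht ↦ ?_
  have h : t.1 ≠ t.2 := by simpa using ht
  simp [al, h, fc, ch, Finset.prod_pair h]

theorem lev_two (P : ι → X n → ℝ) : 2 * lev P 2 ≤ vv P := by
  rw [vv_eq, Finset.sum_comm, ← Finset.sum_fiberwise_of_maps_to
    (t := powersetCard 2 univ) (g := fun t : Fin n × Fin n ↦ ({t.1, t.2} : Finset (Fin n)))
    fun t ht ↦ by simpa using Finset.card_pair (by simpa using ht), lev, Finset.mul_sum]
  refine Finset.sum_le_sum fun U hU ↦ ?_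
  obtain ⟨i, k, hik, rfl⟩ := Finset.card_eq_two.1 (Finset.mem_powersetCard.1 hU).2
  refine le_trans (le_of_eq ?_) (Finset.sum_le_sum_of_subset_of_nonneg (s := {(i, k), (k, i)})
    ?_ fun _ _ _ ↦ by positivity)
  · rw [Finset.sum_pair (by simp [hik]), Finset.pair_comm k i, two_mul, WW]
  · intro t ht
    simp only [mem_insert, mem_singleton] at ht
    rcases ht with rfl | rfl <;> simp [hik, hik.symm, Finset.pair_comm k i]

theorem Rep.vv_le (R : Rep S P) (hp : ∃ k, p = 2 * 2 ^ k) (hσ : 1 / 2 ^ p ≤ den S) :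
    vv P ≤ 32 * p ^ 4 * den S ^ 2 := by
  rw [vv_eq]
  refine (R.level hp hσ _ (fun t : Fin n × Fin n ↦ ({t.1, t.2} : Finset (Fin n))) (D := 2)
    (fun _ _ ↦ Finset.card_le_two) (fiber2 _)).trans (le_of_eq ?_)
  norm_num

theorem Rep.lev_le (R : Rep S P) (hp : ∃ k, p = 2 * 2 ^ k) (hσ : 1 / 2 ^ p ≤ den S) (j : ℕ) :
    lev P j ≤ 8 * p ^ (2 * j) * den S ^ 2 := by
  have := R.level hp hσ (powersetCard j univ) (fun U ↦ U) (D := j) (m := 1)
    (fun _ h ↦ (Finset.mem_powersetCard.1 h).2.le) fun U ↦ Finset.card_le_one.2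
      fun a ha b hb ↦ (Finset.mem_filter.1 ha).2.trans (Finset.mem_filter.1 hb).2.symm
  rw [Finset.sum_comm] at this
  simpa [lev, WW] using this

theorem Rep.sum_lev (R : Rep S P) : ∑ j ∈ range (n + 1), lev P j ≤ den S := by
  have := R.total
  rw [Finset.sum_comm, sum_levels] at this
  exact this

theorem Rep.ww_le (R : Rep S P) (hp : ∃ k, p = 2 * 2 ^ k) (hσ : 1 / 2 ^ p ≤ den S) (hn : 4 ∣ n)
    (h : ∀ x y, ∑ i, sg x i * sg y i = 0 → gk P x y = 0) {ε : ℝ} (hε : ε ^ 2 = 1)
    (hS : ∀ x ∈ S, ch univ x = ε) (h1 : 4 * p ^ 5 ≤ n) :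
    ww P ≤ vv P / (2 * (n - 1)) + 256 * p ^ 11 / n ^ 2 * den S ^ 2 + (1 / 2 ^ p) ^ 2 * den S := by
  have hp2 : 2 ≤ p := by
    obtain ⟨k, rfl⟩ := hp
    have : 1 ≤ 2 ^ k := Nat.one_le_two_pow
    omega
  have h2 : 16 * p ≤ n := by
    have : 2 ^ 4 ≤ p ^ 4 := Nat.pow_le_pow_left hp2 4
    nlinarith [pow_succ p 4]
  have hn0 : 0 < n := by omega
  have hn' : (0 : ℝ) < n := by positivity
  have hn1 : (0 : ℝ) < n - 1 := by
    have : (32 : ℝ) ≤ n := by exact_mod_cast (by omega : 32 ≤ n)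
    linarith
  set ρ : ℝ := 4 * p / n with hρ
  have hρ0 : 0 ≤ ρ := by positivity
  have hρ1 : ρ ≤ 1 / 4 := by
    rw [hρ, div_le_div_iff₀ hn' (by norm_num)]
    have : (16 : ℝ) * p ≤ n := by exact_mod_cast h2
    linarith
  have hρ2 : ρ * p ^ 4 ≤ 1 := by
    rw [hρ, div_mul_eq_mul_div, div_le_one hn']
    have : (4 : ℝ) * p ^ 5 ≤ n := by exact_mod_cast h1
    linarith
  set E : ℝ := 8 * den S ^ 2 * (ρ * p ^ 4) ^ 2 with hE
  have hE0 : 0 ≤ E := by positivity
  set g : ℕ → ℝ := fun j ↦ (if j = 0 then ww P else 0) - (if j = 2 then lev P 2 / (n - 1) else 0) -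
    if j < 2 * p then E else 0 with hg
  set θ : ℝ := (1 / 2 ^ p) ^ 2 with hθ
  have hθ0 : 0 ≤ θ := by positivity
  have half : ∀ j, 2 * j ≤ n → g j - θ * lev P j ≤ lam n j * lev P j := by
    intro j hj
    have a0 := lev_nonneg P j
    have a1 : 0 ≤ θ * lev P j := by positivity
    have a2 : 0 ≤ if j < 2 * p then E else 0 := by positivity
    obtain ⟨m, rfl | rfl⟩ := Nat.even_or_odd' j
    · rcases m with _ | _ | m
      · simp only [hg, mul_zero, lam, lev_zero] at a1 a2 ⊢
        simp only [if_true, OfNat.zero_ne_ofNat, if_false]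
        linarith
      · simp only [hg, zero_add, mul_one, lam_two] at a1 a2 ⊢
        simp only [if_true, OfNat.ofNat_ne_zero, if_false]
        have : lev P 2 / (n - 1) = 1 / (n - 1) * lev P 2 := by ring
        linarith
      · have b1 := lam_even (p := p) hn0 (m + 1 + 1) (by omega)
        have b2 := mul_le_mul_of_nonneg_right ((neg_le_neg b1).trans (neg_abs_le _)) a0
        simp only [hg, if_neg (by omega : ¬ 2 * (m + 1 + 1) = 0),
          if_neg (by omega : ¬ 2 * (m + 1 + 1) = 2)]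
        rw [← hρ] at b2
        rcases lt_or_ge (m + 1 + 1) p with hm | hm
        · rw [min_eq_left hm.le] at b2
          rw [if_pos (by omega)]
          have b3 := mul_le_mul_of_nonneg_left (R.lev_le hp hσ (2 * (m + 1 + 1)))
            (pow_nonneg hρ0 (m + 1 + 1))
          have b4 : (ρ * p ^ 4) ^ (m + 1 + 1) ≤ (ρ * p ^ 4) ^ 2 :=
            pow_le_pow_of_le_one (by positivity) hρ2 (by omega)
          have b5 : ρ ^ (m + 1 + 1) * (8 * p ^ (2 * (2 * (m + 1 + 1))) * den S ^ 2) =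
              8 * den S ^ 2 * (ρ * p ^ 4) ^ (m + 1 + 1) := by ring
          have b6 := mul_le_mul_of_nonneg_left b4 (by positivity : 0 ≤ 8 * den S ^ 2)
          linarith
        · rw [min_eq_right hm] at b2
          have b3 : ρ ^ p ≤ θ := by
            refine (pow_le_pow_left₀ hρ0 hρ1 p).trans (le_of_eq ?_)
            rw [hθ, ← one_div_pow, ← pow_mul, mul_comm, pow_mul]
            norm_num
          have b4 := mul_le_mul_of_nonneg_right b3 a0
          linarith
    · simp only [hg, lam_odd, if_neg (by omega : ¬ 2 * m + 1 = 0),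
        if_neg (by omega : ¬ 2 * m + 1 = 2)]
      linarith
  have gz : ∀ j, n ≤ 2 * j → g j = 0 := fun j hj ↦ by
    simp only [hg, if_neg (by omega : ¬ j = 0), if_neg (by omega : ¬ j = 2),
      if_neg (by omega : ¬ j < 2 * p), sub_zero]
  have full : ∀ j ∈ range (n + 1), g j + g (n - j) - θ * lev P j ≤ lam n j * lev P j := by
    intro j hj
    have hj' : j ≤ n := by simpa [Nat.lt_succ_iff] using hj
    rcases le_total (2 * j) n with h | h
    · rw [gz (n - j) (by omega), add_zero]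
      exact half j h
    · rw [gz j h, zero_add, ← lam_symm hn hj', ← R.lev_symm hε hS hj']
      exact half _ (by omega)
  have s1 := Finset.sum_le_sum full
  rw [spectral hn h, Finset.sum_sub_distrib, Finset.sum_add_distrib, Finset.sum_flip,
    ← Finset.mul_sum] at s1
  have s2 : ww P - lev P 2 / (n - 1) - 2 * p * E ≤ ∑ j ∈ range (n + 1), g j := by
    simp only [hg, Finset.sum_sub_distrib, Finset.sum_ite_eq', mem_range,
      if_pos (by omega : 0 < n + 1), if_pos (by omega : 2 < n + 1)]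
    rw [← Finset.sum_filter, Finset.sum_const, nsmul_eq_mul]
    have : ((range (n + 1)).filter (· < 2 * p)).card ≤ 2 * p :=
      (Finset.card_le_card (t := range (2 * p)) fun j hj ↦
        mem_range.2 (Finset.mem_filter.1 hj).2).trans (card_range _).le
    have h3 : (((range (n + 1)).filter (· < 2 * p)).card : ℝ) ≤ 2 * p := by exact_mod_cast this
    have := mul_le_mul_of_nonneg_right h3 hE0
    linarith
  have s3 := mul_le_mul_of_nonneg_left R.sum_lev hθ0
  have s4 : lev P 2 / (n - 1) ≤ vv P / (2 * (n - 1)) := by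
    rw [← div_div]
    exact div_le_div_of_nonneg_right (by linarith [lev_two P]) hn1.le
  have s5 : 2 * p * E = 256 * p ^ 11 / n ^ 2 * den S ^ 2 := by
    rw [hE, hρ]
    field_simp
    ring
  have s6 : 0 ≤ θ * den S := mul_nonneg hθ0 (den_nonneg S)
  linarith

end Pool.Agent.Lib.MP_5d53d3_co
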