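import Pool.Agent.Lib.MP_5d53d3_co.Cube
import Pool.Agent.Lib.MP_5d53d3_co.Defs

/-! Quantum colourings from almost flat unitary matrices. -/

open Finset Complex
open scoped BigOperators Matrix Kronecker ComplexConjugate

namespace Pool.Agent.Lib.MP_5d53d3_co

theorem chiD_le {V ι C : Type} [Fintype ι] [DecidableEq ι] [Fintype C] (G : SimpleGraph V)
    (P : V → C → Matrix ι ι ℂ) (h1 : ∀ v k, (P v k).IsHermitian ∧ P v k * P v k = P v k)
    (h2 : ∀ v, ∑ k, P v k = 1) (h3 : ∀ v w, G.Adj v w → ∀ k, P v k * P w k = 0) :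
    chiD G (Fintype.card ι) ≤ Fintype.card C := by
  set e := (Fintype.equivFin ι).symm
  set f := (Fintype.equivFin C).symm
  refine Nat.sInf_le ⟨fun v k ↦ (P v (f k)).submatrix e e, fun v k ↦ ⟨(h1 v _).1.submatrix e, ?_⟩,
    fun v ↦ ?_, fun v w h k ↦ ?_⟩
  · rw [Matrix.submatrix_mul_equiv, (h1 v _).2]
  · rw [← Matrix.submatrix_one_equiv e, ← h2 v, ← Equiv.sum_comp f]
    ext i j
    simp [Matrix.sum_apply]
  · rw [Matrix.submatrix_mul_equiv, h3 v w h]
    rfl

theorem sum_sg_of_adj {n : ℕ} {x y : X n} (h : (Omega n).Adj x y) : ∑ i, sg x i * sg y i = 0 := by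
  rw [Omega, SimpleGraph.fromRel_adj] at h
  unfold sg
  rcases h.2 with h | h
  · exact_mod_cast h
  · simp only [mul_comm ((x _ : ℤ) : ℝ)]
    exact_mod_cast h

/-- an almost flat unitary matrix gives a colouring -/
theorem core {ι : Type} [Fintype ι] [DecidableEq ι] {n a : ℕ} (hd : Fintype.card ι ≤ n)
    (ha : 0 < a) (M : Matrix ι ι ℂ) (hM : M * Mᴴ = 1) (H : ι → Finset ι)
    (hH : ∀ k, (H k).card = a) (hf : ∀ k, ∀ j ∉ H k, normSq (M j k) = 1 / n) :
    chiD (Omega n) (Fintype.card ι) ≤ Fintype.card ι * 2 ^ (n - Fintype.card ι + a - 1) := by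
  obtain ⟨e⟩ : Nonempty (ι ↪ Fin n) := Function.Embedding.nonempty_of_card_le (by simpa using hd)
  have hM' : Mᴴ * M = 1 := mul_eq_one_comm.1 hM
  have hcol : ∀ k, ∑ j, normSq (M j k) = 1 := fun k ↦ by
    have := congrArg Complex.re (congrFun (congrFun hM' k) k)
    simpa [Matrix.mul_apply, Complex.re_sum, normSq_apply] using this
  set T : ι → Finset (Fin n) := fun k ↦ ((H k)ᶜ.map e)ᶜ with hT
  have ha' : ∀ k : ι, a ≤ Fintype.card ι := fun k ↦ hH k ▸ Finset.card_le_univ _
  have hTc : ∀ k, (T k).card = n - Fintype.card ι + a := fun k ↦ by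
    have := ha' k
    simp only [hT, card_compl, card_map, Fintype.card_fin, hH]
    omega
  have hne : ∀ k, (T k).Nonempty := fun k ↦ Finset.card_pos.1 (by rw [hTc]; omega)
  choose z hz using hne
  set lab : ∀ (k : ι), X n → ((T k).erase (z k) → ℤˣ) := fun k x j ↦ x j * x (z k) with hlab
  set u : X n → ι → ι → ℂ := fun x k j ↦ (sg x (e j) : ℂ) * M j k with hu
  have hdot : ∀ x y k, star (u x k) ⬝ᵥ u y k =
      ((∑ j, sg x (e j) * sg y (e j) * normSq (M j k) : ℝ) : ℂ) := fun x y k ↦ by
    simp only [dotProduct, hu, Pi.star_apply, ofReal_sum, ofReal_mul, normSq_eq_conj_mul_self]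
    exact Finset.sum_congr rfl fun j _ ↦ by simp; ring
  refine (chiD_le (C := Σ k, ((T k).erase (z k) → ℤˣ)) (Omega n)
    (fun x c ↦ if lab c.1 x = c.2 then Matrix.vecMulVec (u x c.1) (star (u x c.1)) else 0)
    (fun x c ↦ ?_) (fun x ↦ ?_) fun x y h c ↦ ?_).trans (le_of_eq ?_)
  · split_ifs
    · refine ⟨?_, ?_⟩
      · ext i j
        simp [Matrix.vecMulVec_apply, mul_comm]
      · rw [Matrix.vecMulVec_mul_vecMulVec, hdot]
        simp only [sg_sq, one_mul, hcol, ofReal_one, one_smul]
    · simp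
  · rw [Fintype.sum_sigma]
    simp only [Finset.sum_ite_eq, mem_univ, if_true]
    ext i j
    have h1 := congrFun (congrFun hM i) j
    simp only [Matrix.mul_apply, Matrix.conjTranspose_apply] at h1
    have h2 : ∑ k, Matrix.vecMulVec (u x k) (star (u x k)) i j =
        (sg x (e i) * sg x (e j) : ℝ) * ∑ k, M i k * star (M j k) := by
      rw [Finset.mul_sum]
      exact Finset.sum_congr rfl fun k _ ↦ by simp [Matrix.vecMulVec_apply, hu]; ring
    rw [Matrix.sum_apply, h2, h1]
    by_cases hij : i = j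
    · simp [hij, sg_sq]
    · simp [Matrix.one_apply_ne hij]
  · obtain ⟨k, σ⟩ := c
    dsimp only
    split_ifs with h1 h2
    · set s := sg x (z k) * sg y (z k) with hs
      have h3 : ∀ i ∈ T k, sg x i * sg y i = s := fun i hi ↦ by
        by_cases hiz : i = z k
        · rw [hiz]
        have h4 := congrFun (h1.trans h2.symm) ⟨i, Finset.mem_erase.2 ⟨hiz, hi⟩⟩
        have h5 : sg x i * sg x (z k) = sg y i * sg y (z k) := by
          have := congrArg (fun t : ℤˣ ↦ ((t : ℤ) : ℝ)) h4
          simpa [hlab, sg] using this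
        rw [hs]
        linear_combination (sg y i * sg x (z k)) * h5 - (sg x i * sg y i) * sg_sq x (z k) +
          (sg x (z k) * sg y (z k)) * sg_sq y i
      have h4 := sum_sg_of_adj h
      rw [← Finset.sum_add_sum_compl ((H k)ᶜ.map e), Finset.sum_map,
        Finset.sum_congr rfl h3, Finset.sum_const, hTc, nsmul_eq_mul] at h4
      have h5 := hcol k
      rw [← Finset.sum_add_sum_compl (H k), Finset.sum_congr rfl fun j hj ↦ hf k j
        (Finset.mem_compl.1 hj), Finset.sum_const, card_compl, hH, nsmul_eq_mul] at h5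
      have h6 : ∑ j, sg x (e j) * sg y (e j) * normSq (M j k) = 0 := by
        rw [← Finset.sum_add_sum_compl (H k), Finset.sum_congr rfl fun j hj ↦ by
          rw [h3 (e j) (by simpa [hT] using hj)], Finset.sum_congr (s₁ := (H k)ᶜ) rfl fun j hj ↦ by
          rw [hf k j (Finset.mem_compl.1 hj)], ← Finset.mul_sum, ← Finset.sum_mul]
        have h7 : (n : ℝ) ≠ 0 := by exact_mod_cast (Fin.pos (z k)).ne'
        rw [Nat.cast_add, Nat.cast_sub hd] at h4
        rw [Nat.cast_sub (ha' k)] at h5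
        field_simp at h5 ⊢
        linear_combination h4 + s * h5
      rw [Matrix.vecMulVec_mul_vecMulVec, hdot, h6]
      simp
    · simp
    · simp
    · simp
  · simp only [Fintype.card_sigma, Fintype.card_fun, Fintype.card_coe,
      Finset.card_erase_of_mem (hz _), hTc, Fintype.card_units_int, sum_const, card_univ,
      smul_eq_mul]

/-- unitary matrices whose entries off the diagonal have constant modulus -/
def Flat (β : Type) [Fintype β] [DecidableEq β] : Prop :=
  ∀ N : ℝ, Fintype.card β ≤ N → ∃ M : Matrix β β ℂ, M * Mᴴ = 1 ∧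
    ∀ j k, j ≠ k → normSq (M j k) = 1 / N

theorem sum_psi {R : Type} [CommRing R] [Fintype R] [DecidableEq R] {ψ : AddChar R ℂ}
    (hψ : ψ.IsPrimitive) (t : R) : ∑ y, ψ (y * t) = if t = 0 then (Fintype.card R : ℂ) else 0 := by
  rw [AddChar.sum_mulShift t hψ]
  split_ifs <;> simp

theorem normSq_psi {R : Type} [CommRing R] [Fintype R] (ψ : AddChar R ℂ) (t : R) :
    normSq (ψ t) = 1 := by rw [normSq_eq_norm_sq, AddChar.norm_apply, one_pow]

theorem upper_of_flat {β : Type} [Fintype β] [DecidableEq β] (hβ : Flat β) {n a : ℕ} (ha : 0 < a)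
    (h : a * Fintype.card β ≤ n) :
    chiD (Omega n) (a * Fintype.card β) ≤
      a * Fintype.card β * 2 ^ (n - a * Fintype.card β + a - 1) := by
  have : NeZero a := ⟨ha.ne'⟩
  have ha' : (0 : ℝ) < a := by positivity
  obtain ⟨M, h1, h2⟩ := hβ (n / a) (by
    rw [le_div_iff₀ ha', mul_comm]
    exact_mod_cast h)
  set F : Matrix (ZMod a) (ZMod a) ℂ := fun x y ↦ ((√a)⁻¹ : ℝ) * ZMod.stdAddChar (y * x) with hF
  have hs : ((√a)⁻¹ : ℝ) * (√a)⁻¹ = (a : ℝ)⁻¹ := by rw [← mul_inv, Real.mul_self_sqrt ha'.le]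
  have h3 : F * Fᴴ = 1 := by
    ext x y
    have : ∀ z, F x z * star (F y z) = ((a : ℝ)⁻¹ : ℝ) * ZMod.stdAddChar (z * (x - y)) := fun z ↦ by
      simp only [hF, star_mul', RCLike.star_def, conj_ofReal, ← AddChar.map_neg_eq_conj, ← hs,
        sub_eq_add_neg, mul_add, mul_neg, AddChar.map_add_eq_mul, ofReal_mul]
      ring
    simp only [Matrix.mul_apply, Matrix.conjTranspose_apply, this, ← Finset.mul_sum,
      sum_psi (ZMod.isPrimitive_stdAddChar a), sub_eq_zero, Matrix.one_apply, ZMod.card]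
    split_ifs <;> simp [ha.ne']
  have := core (ι := ZMod a × β) (n := n) (by simpa using h) ha (F ⊗ₖ M)
    (by rw [Matrix.conjTranspose_kronecker, ← Matrix.mul_kronecker_mul, h1, h3,
      Matrix.one_kronecker_one]) (fun k ↦ univ ×ˢ {k.2}) (fun k ↦ by simp) fun k j hj ↦ by
      rw [Matrix.kroneckerMap_apply, map_mul, h2 _ _ (fun h ↦ hj (Finset.mem_product.2
        ⟨mem_univ _, Finset.mem_singleton.2 h⟩)), hF]
      simp only [map_mul, normSq_ofReal, hs, normSq_psi]
      by_cases hn : (n : ℝ) = 0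
      · simp [hn]
      · field_simp
  simpa using this

theorem flat_of_herm {β : Type} [Fintype β] [DecidableEq β] (E : Matrix β β ℂ)
    (h1 : Eᴴ = E) (h2 : E * E = (Fintype.card β : ℂ) • 1) (h3 : ∀ j k, normSq (E j k) = 1) :
    Flat β := by
  intro N hN
  rcases isEmpty_or_nonempty β with h | h
  · exact ⟨1, Subsingleton.elim _ _, fun j ↦ isEmptyElim j⟩
  have h0 : (0 : ℝ) < N := lt_of_lt_of_le (by exact_mod_cast Fintype.card_pos) hN
  obtain ⟨κ, hκ⟩ : ∃ κ : ℝ, κ * κ = N - Fintype.card β := ⟨_, Real.mul_self_sqrt (by linarith)⟩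
  obtain ⟨c, hc⟩ : ∃ c : ℝ, c * c = 1 / N := ⟨_, Real.mul_self_sqrt (by positivity)⟩
  refine ⟨(c : ℂ) • ((κ * I) • 1 + E), ?_, fun j k hjk ↦ by
    simp [Matrix.one_apply_ne hjk, h3, hc]⟩
  have e1 : (κ : ℂ) * κ = N - Fintype.card β := by exact_mod_cast hκ
  have e2 : (c : ℂ) * c * N = 1 := by
    have : c * c * N = 1 := by rw [hc]; field_simp
    exact_mod_cast this
  simp only [Matrix.conjTranspose_smul, Matrix.conjTranspose_add, Matrix.conjTranspose_one, h1,
    Matrix.smul_mul, Matrix.mul_smul, Matrix.add_mul, Matrix.mul_add, Matrix.one_mul,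
    Matrix.mul_one, h2, star_mul', RCLike.star_def, conj_ofReal, conj_I]
  match_scalars
  · linear_combination e2 + c * c * e1 - c * c * κ * κ * I_mul_I
  · ring

theorem flat_sq (D : ℕ) [NeZero D] : Flat (ZMod D × ZMod D) := by
  refine flat_of_herm (fun x y ↦ ZMod.stdAddChar (x.1 * y.2 - x.2 * y.1)) ?_ ?_
    fun _ _ ↦ normSq_psi _ _
  · ext x y
    simp only [Matrix.conjTranspose_apply, RCLike.star_def, ← AddChar.map_neg_eq_conj]
    congr 1
    ring
  · ext x y
    have : ∀ a b : ZMod D, ZMod.stdAddChar (x.1 * b - x.2 * a) *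
        ZMod.stdAddChar (a * y.2 - b * y.1) =
        ZMod.stdAddChar (a * (y.2 - x.2)) * ZMod.stdAddChar (b * (x.1 - y.1)) := fun a b ↦ by
      rw [← AddChar.map_add_eq_mul, ← AddChar.map_add_eq_mul]
      congr 1
      ring
    simp only [Matrix.mul_apply, Fintype.sum_prod_type, this, ← Finset.sum_mul_sum,
      sum_psi (ZMod.isPrimitive_stdAddChar D), sub_eq_zero, Matrix.smul_apply, Matrix.one_apply,
      Prod.ext_iff, eq_comm (a := y.2)]
    by_cases h1 : x.1 = y.1 <;> by_cases h2 : x.2 = y.2 <;> simp [h1, h2]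

theorem flat_two (F : Type) [Field F] [Fintype F] [DecidableEq F] [CharP F 2] : Flat F := by
  have hψ := AddChar.FiniteField.primitiveChar_to_Complex_isPrimitive F
  refine flat_of_herm (fun x y ↦ AddChar.FiniteField.primitiveChar_to_Complex F (x * y)) ?_ ?_
    fun _ _ ↦ normSq_psi _ _
  · ext x y
    simp only [Matrix.conjTranspose_apply, RCLike.star_def, ← AddChar.map_neg_eq_conj,
      CharTwo.neg_eq, mul_comm]
  · ext x y
    have : ∀ z, x * z + z * y = z * (x - y) := fun z ↦ by
      rw [CharTwo.sub_eq_add]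
      ring
    simp only [Matrix.mul_apply, ← AddChar.map_add_eq_mul, this, sum_psi hψ, sub_eq_zero,
      Matrix.smul_apply, Matrix.one_apply]
    split_ifs <;> simp

theorem flat_odd (F : Type) [Field F] [Fintype F] [DecidableEq F] (hF : ringChar F ≠ 2) :
    Flat F := by
  intro N hN
  set χ : MulChar F ℂ := (quadraticChar F).ringHomComp (Int.castRingHom ℂ) with hχ
  have hq : χ.IsQuadratic := (quadraticChar_isQuadratic F).comp _
  have hne : χ ≠ 1 := (MulChar.ringHomComp_ne_one_iff Int.cast_injective).2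
    (quadraticChar_ne_one hF)
  have hsq : ∀ t : F, t ≠ 0 → χ t * χ t = 1 := fun t ht ↦ by
    have := congrArg (fun z : ℤ ↦ (z : ℂ)) (quadraticChar_sq_one ht)
    simpa [hχ, sq] using this
  have hre : ∀ t : F, conj (χ t) = χ t := fun t ↦ by simp [hχ]
  have hsum : ∀ x : F, ∑ z, χ (x - z) = 0 := fun x ↦ by
    rw [← MulChar.sum_eq_zero_of_ne_one hne]
    exact Equiv.sum_comp (Equiv.subLeft x) χ
  set q : ℕ := Fintype.card F with hq'
  have hcor : ∀ x y : F, ∑ z, χ (x - z) * χ (y - z) = (if x = y then (q : ℂ) else 0) - 1 := by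
    intro x y
    split_ifs with h
    · subst h
      have : ∀ z, χ (x - z) * χ (x - z) = 1 - if x = z then 1 else 0 := fun z ↦ by
        split_ifs with h
        · simp [h, MulChar.map_zero]
        · simpa using hsq _ (sub_ne_zero.2 h)
      simp [this, hq']
    · have h1 := jacobiSum_nontrivial_inv hne
      rw [hq.inv, jacobiSum] at h1
      have hc : x - y ≠ 0 := sub_ne_zero.2 h
      rw [← Equiv.sum_comp ((Equiv.mulLeft₀ (x - y) hc).trans (Equiv.subLeft x))]
      have : ∀ t : F, χ (x - ((Equiv.mulLeft₀ (x - y) hc).trans (Equiv.subLeft x)) t) *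
          χ (y - ((Equiv.mulLeft₀ (x - y) hc).trans (Equiv.subLeft x)) t) =
          χ (-1) * (χ t * χ (1 - t)) := fun t ↦ by
        have e1 : x - (x - (x - y) * t) = (x - y) * t := by ring
        have e2 : y - (x - (x - y) * t) = -1 * ((x - y) * (1 - t)) := by ring
        simp only [Equiv.trans_apply, Equiv.mulLeft₀_apply, Equiv.subLeft_apply, e1, e2, map_mul]
        linear_combination (χ (-1) * (χ t * χ (1 - t))) * hsq _ hc
      simp only [this, ← Finset.mul_sum, h1]
      linear_combination -hsq (-1) (by simp)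
  have hq2 : (2 : ℝ) ≤ q := by exact_mod_cast Fintype.one_lt_card
  have key : ∀ α β γ : ℂ, α * conj β * χ (-1) + β * conj α = 0 →
      α * conj α + q * (β * conj β) = 1 →
      α * conj γ + γ * conj α + q * (γ * conj γ) = β * conj β → β * conj γ + γ * conj β = 0 →
      β * conj β + γ * conj γ = 1 / N → ∃ M : Matrix F F ℂ, M * Mᴴ = 1 ∧
        ∀ j k, j ≠ k → normSq (M j k) = 1 / N := by
    intro α β γ h1 h2 h3 h4 h5
    refine ⟨fun x y ↦ (if x = y then α else 0) + β * χ (x - y) + γ, ?_, fun j k hjk ↦ ?_⟩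
    · ext x y
      have e : ∀ z, ((if x = z then α else 0) + β * χ (x - z) + γ) *
          star ((if y = z then α else 0) + β * χ (y - z) + γ) =
          (if x = z then if y = z then α * conj α else 0 else 0) +
          (if x = z then α * (conj β * χ (y - x) + conj γ) else 0) +
          (if y = z then (β * χ (x - y) + γ) * conj α else 0) +
          β * conj β * (χ (x - z) * χ (y - z)) + β * conj γ * χ (x - z) +
          γ * conj β * χ (y - z) + γ * conj γ := fun z ↦ by
        simp only [star_add, star_mul', RCLike.star_def, hre]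
        split_ifs with a b b
        · rw [← a, b, a]
          ring
        · rw [← a, map_zero]
          ring
        · rw [← b]
          ring
        · rw [map_zero]
          ring
      have e2 : χ (y - x) = χ (-1) * χ (x - y) := by rw [← map_mul]; congr 1; ring
      simp only [Matrix.mul_apply, Matrix.conjTranspose_apply, e]
      simp only [Finset.sum_add_distrib, Finset.sum_ite_eq, mem_univ, if_true, ← Finset.mul_sum,
        hsum, hcor, sum_const, card_univ, nsmul_eq_mul, Matrix.one_apply, e2, ← hq']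
      simp only [eq_comm (a := y)]
      split_ifs
      · linear_combination h2 + h3 + χ (x - y) * h1
      · linear_combination h3 + χ (x - y) * h1
    · apply Complex.ofReal_injective
      rw [normSq_eq_conj_mul_self]
      simp only [if_neg hjk, zero_add, map_add, map_mul, hre]
      push_cast
      linear_combination h5 + χ (j - k) * h4 + β * conj β * hsq _ (sub_ne_zero.2 hjk)
  have h0 : (0 : ℝ) < N := by linarith
  rcases mul_self_eq_one_iff.1 (hsq (-1) (by simp)) with hs | hs
  · obtain ⟨ρ, hρ0, hρ⟩ : ∃ ρ : ℝ, 0 ≤ ρ ∧ ρ * ρ = 1 - (q - 1) / N :=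
      ⟨_, Real.sqrt_nonneg _, Real.mul_self_sqrt (by
        rw [sub_nonneg, div_le_one h0]; linarith)⟩
    have hρ1 : ρ ≤ 1 := by
      have : 0 ≤ (q - 1) / N := div_nonneg (by linarith) h0.le
      nlinarith
    obtain ⟨g, hg⟩ : ∃ g : ℝ, g * (q - 1) = 1 - ρ := ⟨(1 - ρ) / (q - 1), by
      have : (q : ℝ) - 1 ≠ 0 := by linarith
      field_simp⟩
    have hg0 : 0 ≤ g := by nlinarith
    have hg1 : (q - 1) * g * g - 2 * g + 1 / N = 0 := by
      refine mul_left_cancel₀ (a := (q : ℝ) - 1) (by linarith) ?_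
      linear_combination (g * (q - 1) - 1 - ρ) * hg + hρ
    obtain ⟨b, hb⟩ : ∃ b : ℝ, b * b = 2 * g - q * g * g :=
      ⟨_, Real.mul_self_sqrt (by nlinarith [mul_nonneg hg0 hρ0, mul_nonneg hg0 hg0])⟩
    have e1 : (b : ℂ) * b = 2 * g - q * g * g := by exact_mod_cast hb
    have e2 : ((q : ℂ) - 1) * g * g - 2 * g + 1 / N = 0 := by exact_mod_cast hg1
    refine key ((1 - g * q) * I) b (g * I) ?_ ?_ ?_ ?_ ?_ <;>
      simp only [hs, map_mul, map_sub, map_one, conj_ofReal, conj_I, map_natCast]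
    · ring
    · linear_combination q * e1 - (1 - g * q) ^ 2 * I_mul_I
    · linear_combination -e1 - (2 * (1 - g * q) * g + q * g * g) * I_mul_I
    · ring
    · linear_combination e1 - e2 - g * g * I_mul_I
  · obtain ⟨g, hg⟩ : ∃ g : ℝ, g * g = 1 / (N * (q + 1)) := ⟨_, Real.mul_self_sqrt (by positivity)⟩
    have hg1 : g * g * (q + 1) = 1 / N := by rw [hg]; field_simp
    obtain ⟨b, hb⟩ : ∃ b : ℝ, b * b = q * (g * g) :=
      ⟨_, Real.mul_self_sqrt (mul_nonneg (by linarith) (mul_self_nonneg g))⟩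
    obtain ⟨κ, hκ⟩ : ∃ κ : ℝ, κ * κ = 1 - q * (q * (g * g)) := ⟨_, Real.mul_self_sqrt (by
      rw [hg, sub_nonneg, mul_one_div, ← mul_div_assoc, div_le_one (by positivity)]
      nlinarith)⟩
    have e1 : (b : ℂ) * b = q * (g * g) := by exact_mod_cast hb
    have e2 : (g : ℂ) * g * (q + 1) = 1 / N := by exact_mod_cast hg1
    have e3 : (κ : ℂ) * κ = 1 - q * (q * (g * g)) := by exact_mod_cast hκ
    refine key (κ * I) (b * I) g ?_ ?_ ?_ ?_ ?_ <;>
      simp only [hs, map_mul, conj_ofReal, conj_I]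
    · ring
    · linear_combination e3 + q * e1 - (κ * κ + q * b * b) * I_mul_I
    · linear_combination -e1 + b * b * I_mul_I
    · ring
    · linear_combination e1 + e2 - b * b * I_mul_I

theorem upper {n a b : ℕ} (ha : 0 < a) (hb : IsPrimePow b ∨ (0 < b ∧ IsSquare b))
    (h : a * b ≤ n) : chiD (Omega n) (a * b) ≤ a * b * 2 ^ (n - a * b + a - 1) := by
  classical
  rcases hb with hb | ⟨h0, D, rfl⟩
  · obtain ⟨p, k, hp, hk, rfl⟩ := (isPrimePow_nat_iff b).1 hb
    have := Fact.mk hp
    have := Fintype.ofFinite (GaloisField p k)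
    have hc : Fintype.card (GaloisField p k) = p ^ k := by
      rw [← Nat.card_eq_fintype_card, GaloisField.card p k hk.ne']
    rw [← hc] at h ⊢
    refine upper_of_flat ?_ ha h
    by_cases h2 : p = 2
    · subst h2
      exact flat_two _
    · exact flat_odd _ (by rwa [ringChar.eq (GaloisField p k) p])
  · have : NeZero D := ⟨by rintro rfl; simp at h0⟩
    have hc : Fintype.card (ZMod D × ZMod D) = D * D := by simp
    rw [← hc] at h ⊢
    exact upper_of_flat (flat_sq D) ha h

end Pool.Agent.Lib.MP_5d53d3_co
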